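import Mathlib

open Metric Set Filter Topology InnerProductSpace Laplacian
open scoped ENNReal

namespace Pool.Agent.H28.MinSub

/-- The mean value of `v` over the circle of centre `c` and radius `r`, for `v` upper
semicontinuous with values in `[-∞, ∞)`: the infimum of the circle averages of the continuous
real functions which dominate `v` on the circle. -/
noncomputable def circleMean (v : ℂ → EReal) (c : ℂ) (r : ℝ) : EReal :=
  ⨅ (u : ℂ → ℝ) (_ : ContinuousOn u (sphere c r)) (_ : ∀ z ∈ sphere c r, v z ≤ (u z : EReal)),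
    ((Real.circleAverage u c r : ℝ) : EReal)

/-- Subharmonic functions on the open set `G`: upper semicontinuous, with values in `[-∞, ∞)`,
satisfying the (local) sub-mean value inequality. -/
structure IsSubharmonicOn (v : ℂ → EReal) (G : Set ℂ) : Prop where
  lt_top : ∀ z ∈ G, v z < ⊤
  usc : UpperSemicontinuousOn v G
  submean : ∀ c ∈ G, ∃ R > 0, closedBall c R ⊆ G ∧ ∀ r, 0 < r → r ≤ R → v c ≤ circleMean v c r

/-- The class `U[ρ]`: subharmonic functions on `ℂ` with `v 0 = 0` and `v z ≤ σ |z|^ρ` for some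
constant `σ > 0`. -/
def classU (ρ : ℝ) : Set (ℂ → EReal) :=
  {v | IsSubharmonicOn v univ ∧ v 0 = 0 ∧
    ∃ σ : ℝ, 0 < σ ∧ ∀ z, v z ≤ ((σ * ‖z‖ ^ ρ : ℝ) : EReal)}

/-- `v` is minimal in `U[ρ]`: for no `ε > 0` is there `w ∈ U[ρ]` with `w ≤ v - ε |z|^ρ`. -/
def IsMinimal (ρ : ℝ) (v : ℂ → EReal) : Prop :=
  v ∈ classU ρ ∧ ∀ ε : ℝ, 0 < ε → ¬ ∃ w ∈ classU ρ, ∀ z, w z ≤ v z - ((ε * ‖z‖ ^ ρ : ℝ) : EReal)

/-- `H(v)`, the largest open set on which `v` is (real valued and) harmonic. -/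
def harmonicSet (v : ℂ → EReal) : Set ℂ :=
  {z | ∃ h : ℂ → ℝ, HarmonicAt h z ∧ ∀ᶠ w in 𝓝 z, v w = (h w : EReal)}

/-- The differential operator `L_λ = ∂_x² + ∂_y² + 2 λ ∂_x + λ²`. -/
noncomputable def opL (lam : ℝ) (r : ℂ → ℝ) (z : ℂ) : ℝ :=
  (Δ r) z + 2 * lam * fderiv ℝ r z 1 + lam ^ 2 * r z

/-- A boundary point `q` of the open set `D` is regular for the Dirichlet problem for the
Laplacian: there is a barrier at `q`, that is a subharmonic function `b < 0` on `D ∩ N` for some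
open neighbourhood `N` of `q`, with `b → 0` at `q`. -/
def IsRegularPoint (D : Set ℂ) (q : ℂ) : Prop :=
  ∃ N : Set ℂ, IsOpen N ∧ q ∈ N ∧ ∃ b : ℂ → EReal, IsSubharmonicOn b (D ∩ N) ∧
    (∀ z ∈ D ∩ N, b z < 0) ∧ Tendsto b (𝓝[D ∩ N] q) (𝓝 0)

/-- Problem (1) in the open set `D` of the cylinder `ℝ × (ℝ / 2πℤ)`. Subsets of the cylinder and
functions on them are identified with subsets of `ℂ`, `x + iy`, and functions invariant under
`z ↦ z + 2πi`. -/
structure IsBoundedSolution (D : Set ℂ) (lam : ℝ) (r : ℂ → ℝ) : Prop where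
  periodic : ∀ z ∈ D, r (z + 2 * Real.pi * Complex.I) = r z
  bounded : ∃ C : ℝ, ∀ z ∈ D, |r z| ≤ C
  smooth : ContDiffOn ℝ 2 r D
  eqn : ∀ z ∈ D, opL lam r z = 0
  boundary : ∀ q ∈ frontier D, IsRegularPoint D q → Tendsto r (𝓝[D] q) (𝓝 0)

/-- `λ(D)`: the infimum of the `λ > 0` for which (1) has a nontrivial solution, `∞` if there
is none. -/
noncomputable def criticalRate (D : Set ℂ) : ℝ≥0∞ :=
  ⨅ (lam : ℝ) (_ : 0 < lam) (_ : ∃ r, IsBoundedSolution D lam r ∧ ∃ z ∈ D, r z ≠ 0),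
    ENNReal.ofReal lam

/-- `λ(v) = λ(Ĥ(v))`, where `Ĥ(v) = {(x,y) : e^(x+iy) ∈ H(v)}`. -/
noncomputable def spectralRate (v : ℂ → EReal) : ℝ≥0∞ :=
  criticalRate (Complex.exp ⁻¹' harmonicSet v)

/-- The affirmative statement of Q1. -/
def SpectralCriterion : Prop :=
  ∀ ρ : ℝ, 0 < ρ → ∀ v ∈ classU ρ, harmonicSet v ≠ univ →
    (IsMinimal ρ v ↔ spectralRate v ≤ ENNReal.ofReal ρ)

end Pool.Agent.H28.MinSub
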