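import Pool.Agent.H28.MinSub.Potential2

open Metric Set Filter Topology InnerProductSpace Laplacian
open scoped ENNReal

namespace Pool.Agent.H28.MinSub

/-- Index set of the atoms. -/
abbrev Idx : Type := ℤ × ℕ

/-- Masses. -/
noncomputable def mass (ρ : ℝ) (i : Idx) : ℝ := (2 : ℝ) ^ ((i.1 : ℝ) * ρ) * (1 / 2) ^ (i.2 + 1)

/-- Bounds. -/
noncomputable def bnd (N : ℕ) (n : ℤ) (R : ℝ) : ℝ := Real.log (1 + (R / (2 : ℝ) ^ n) ^ N)

theorem bnd_nonneg {N : ℕ} {n : ℤ} {R : ℝ} (hR : 0 ≤ R) : 0 ≤ bnd N n R := by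
  apply Real.log_nonneg
  have : 0 ≤ (R / (2 : ℝ) ^ n) ^ N := by positivity
  linarith

theorem bnd_mono {N : ℕ} {n : ℤ} {r s : ℝ} (hr : 0 ≤ r) (hrs : r ≤ s) :
    bnd N n r ≤ bnd N n s := by
  unfold bnd
  apply Real.log_le_log
  · have : 0 ≤ (r / (2 : ℝ) ^ n) ^ N := by positivity
    linarith
  · gcongr

theorem bnd_zero {N : ℕ} (hN : 0 < N) (n : ℤ) : bnd N n 0 = 0 := by
  unfold bnd
  rw [zero_div, zero_pow hN.ne', add_zero, Real.log_one]

theorem bnd_shift (N : ℕ) (n : ℤ) (R : ℝ) : bnd N (n + 1) (2 * R) = bnd N n R := by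
  unfold bnd
  congr 3
  rw [zpow_add_one₀ (by norm_num)]
  field_simp

/-- The key summability over dyadic scales. -/
theorem summable_scale {ρ : ℝ} (hρ : 0 < ρ) {N : ℕ} (hN : ρ < N) {R : ℝ} (hR : 0 ≤ R) :
    Summable fun n : ℤ => (2 : ℝ) ^ ((n : ℝ) * ρ) * bnd N n R := by
  apply Summable.of_nat_of_neg
  · -- nonnegative scales
    have hr : (2 : ℝ) ^ (ρ - N) < 1 := Real.rpow_lt_one_of_one_lt_of_neg (by norm_num) (by linarith)
    have hgeo : Summable fun n : ℕ => R ^ N * ((2 : ℝ) ^ (ρ - N)) ^ n :=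
      (summable_geometric_of_lt_one (by positivity) hr).mul_left _
    refine Summable.of_nonneg_of_le (fun n => mul_nonneg (by positivity) (bnd_nonneg hR)) ?_ hgeo
    intro n
    have h1 : bnd N (n : ℤ) R ≤ (R / (2 : ℝ) ^ n) ^ N := by
      unfold bnd
      rw [zpow_natCast]
      have h2 : 0 ≤ (R / (2 : ℝ) ^ n) ^ N := by positivity
      have := Real.log_le_sub_one_of_pos (by linarith : 0 < 1 + (R / (2 : ℝ) ^ n) ^ N)
      linarith
    calc (2 : ℝ) ^ (((n : ℤ) : ℝ) * ρ) * bnd N (n : ℤ) R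
        ≤ (2 : ℝ) ^ (((n : ℤ) : ℝ) * ρ) * (R / (2 : ℝ) ^ n) ^ N := by gcongr
      _ = R ^ N * ((2 : ℝ) ^ (ρ - N)) ^ n := by
          rw [div_pow, ← pow_mul, ← Real.rpow_natCast ((2 : ℝ) ^ (ρ - N)) n,
            ← Real.rpow_mul (by norm_num), sub_mul, Real.rpow_sub (by norm_num)]
          have h3 : (2 : ℝ) ^ ((N : ℝ) * (n : ℝ)) = (2 : ℝ) ^ (n * N) := by
            rw [← Real.rpow_natCast 2 (n * N)]
            congr 1
            push_cast
            ring
          rw [h3]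
          have h4 : (2 : ℝ) ^ (((n : ℤ) : ℝ) * ρ) = (2 : ℝ) ^ (ρ * (n : ℝ)) := by
            congr 1
            push_cast
            ring
          rw [h4]
          ring
  · -- negative scales
    have hr : (2 : ℝ) ^ (-ρ) < 1 := Real.rpow_lt_one_of_one_lt_of_neg (by norm_num) (by linarith)
    have hr0 : 0 < (2 : ℝ) ^ (-ρ) := by positivity
    have hgeo1 : Summable fun n : ℕ => Real.log (1 + R ^ N) * ((2 : ℝ) ^ (-ρ)) ^ n :=
      (summable_geometric_of_lt_one hr0.le hr).mul_left _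
    have hgeo2 : Summable fun n : ℕ => (N * Real.log 2) * ((n : ℝ) ^ 1 * ((2 : ℝ) ^ (-ρ)) ^ n) := by
      apply Summable.mul_left
      apply summable_pow_mul_geometric_of_norm_lt_one
      rwa [Real.norm_of_nonneg hr0.le]
    refine Summable.of_nonneg_of_le (fun n => mul_nonneg (by positivity) (bnd_nonneg hR)) ?_
      (hgeo1.add hgeo2)
    intro n
    have h0 : (0 : ℝ) ≤ R ^ N := by positivity
    have h1 : bnd N (-(n : ℤ)) R ≤ Real.log (1 + R ^ N) + n * (N * Real.log 2) := by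
      unfold bnd
      have h2 : (1 : ℝ) + (R / (2 : ℝ) ^ (-(n : ℤ))) ^ N ≤ (1 + R ^ N) * (2 : ℝ) ^ (n * N) := by
        rw [zpow_neg, zpow_natCast, div_inv_eq_mul, mul_pow, ← pow_mul]
        have h3 : (1 : ℝ) ≤ 2 ^ (n * N) := one_le_pow₀ (by norm_num)
        nlinarith
      have h4 : (0 : ℝ) < 1 + (R / (2 : ℝ) ^ (-(n : ℤ))) ^ N := by
        have : 0 ≤ (R / (2 : ℝ) ^ (-(n : ℤ))) ^ N := by positivity
        linarith
      refine (Real.log_le_log h4 h2).trans (le_of_eq ?_)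
      rw [Real.log_mul (by linarith) (by positivity), Real.log_pow]
      push_cast
      ring
    calc (2 : ℝ) ^ (((-(n : ℤ) : ℤ) : ℝ) * ρ) * bnd N (-(n : ℤ)) R
        ≤ (2 : ℝ) ^ (((-(n : ℤ) : ℤ) : ℝ) * ρ) *
          (Real.log (1 + R ^ N) + n * (N * Real.log 2)) := by gcongr
      _ = _ := by
          have h4 : (2 : ℝ) ^ (((-(n : ℤ) : ℤ) : ℝ) * ρ) = ((2 : ℝ) ^ (-ρ)) ^ n := by
            rw [← Real.rpow_natCast ((2 : ℝ) ^ (-ρ)) n, ← Real.rpow_mul (by norm_num)]
            congr 1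
            push_cast
            ring
          rw [h4]
          ring

/-- The potential data: atoms at the `N`-th roots of `2^(nN) q_j`. -/
noncomputable def exData {ρ : ℝ} (hρ : 0 < ρ) {N : ℕ} (hN : ρ < N) (q : ℕ → ℂ)
    (hq : ∀ j, 1 ≤ ‖q j‖) : PotData Idx where
  m := mass ρ
  P := fun i z => 1 - (z / (2 : ℂ) ^ i.1) ^ N / q i.2
  b := fun i R => bnd N i.1 R
  m_pos := fun i => by unfold mass; positivity
  P_diff := fun i => by
    have h : (2 : ℂ) ^ i.1 ≠ 0 := zpow_ne_zero _ (by norm_num)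
    fun_prop
  P_zero := fun i => by
    have hN0 : N ≠ 0 := by
      rintro rfl
      simp at hN
      linarith
    simp [zero_pow hN0]
  b_zero := fun i => by
    apply bnd_zero
    have : (0 : ℝ) < N := hρ.trans hN
    exact_mod_cast this
  b_mono := fun i r s hr hrs => bnd_mono hr hrs
  norm_le := fun i z => by
    unfold bnd
    have h1 : 0 ≤ (‖z‖ / (2 : ℝ) ^ i.1) ^ N := by positivity
    rw [Real.exp_log (by linarith)]
    refine (norm_sub_le _ _).trans ?_
    rw [norm_one]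
    gcongr
    rw [norm_div, norm_pow, norm_div, norm_zpow, Complex.norm_ofNat]
    exact div_le_self h1 (hq i.2)
  summable := fun R hR => by
    have h1 := summable_scale hρ hN hR
    have h2 : Summable fun j : ℕ => ((1 : ℝ) / 2) ^ (j + 1) :=
      (summable_nat_add_iff 1).2 (summable_geometric_of_lt_one (by norm_num) (by norm_num))
    have h3 := Summable.mul_of_nonneg h1 h2
      (fun n => mul_nonneg (by positivity) (bnd_nonneg hR)) (fun j => by positivity)
    refine h3.congr fun i => ?_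
    unfold mass
    ring

end Pool.Agent.H28.MinSub
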