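import Pool.Agent.H28.MinSub.Example

open Metric Set Filter Topology InnerProductSpace Laplacian
open scoped ENNReal

namespace Pool.Agent.H28.MinSub

section

variable {ρ : ℝ} (hρ : 0 < ρ) {N : ℕ} (hN : ρ < N) (q : ℕ → ℂ) (hq : ∀ j, 1 ≤ ‖q j‖)

/-- Shift of scales. -/
def shiftEquiv : Idx ≃ Idx := Equiv.prodCongr (Equiv.addRight 1) (Equiv.refl ℕ)

theorem mass_shift (i : Idx) : mass ρ (shiftEquiv i) = (2 : ℝ) ^ ρ * mass ρ i := by
  unfold mass shiftEquiv
  simp only [Equiv.prodCongr_apply, Prod.map_fst, Equiv.coe_addRight, Prod.map_snd,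
    Equiv.refl_apply]
  have : (((i.1 + 1 : ℤ) : ℝ)) * ρ = ρ + (i.1 : ℝ) * ρ := by push_cast; ring
  rw [this, Real.rpow_add (by norm_num)]
  ring

theorem exB_double (R : ℝ) :
    (exData hρ hN q hq).B (2 * R) = (2 : ℝ) ^ ρ * (exData hρ hN q hq).B R := by
  unfold PotData.B
  rw [← shiftEquiv.tsum_eq, ← tsum_mul_left]
  apply tsum_congr
  intro i
  change mass ρ (shiftEquiv i) * bnd N (shiftEquiv i).1 (2 * R)
    = (2 : ℝ) ^ ρ * (mass ρ i * bnd N i.1 R)
  rw [mass_shift]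
  have : (shiftEquiv i).1 = i.1 + 1 := rfl
  rw [this, bnd_shift]
  ring

theorem exP_shift (i : Idx) (z : ℂ) :
    (exData hρ hN q hq).P (shiftEquiv i) (2 * z) = (exData hρ hN q hq).P i z := by
  change 1 - (2 * z / (2 : ℂ) ^ (i.1 + 1)) ^ N / q i.2 = 1 - (z / (2 : ℂ) ^ i.1) ^ N / q i.2
  have h : (2 : ℂ) ^ i.1 ≠ 0 := zpow_ne_zero _ (by norm_num)
  have : 2 * z / (2 : ℂ) ^ (i.1 + 1) = z / (2 : ℂ) ^ i.1 := by
    rw [zpow_add_one₀ (by norm_num)]
    field_simp
  rw [this]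

theorem exApprox_shift (F : Finset Idx) (k : ℕ) (R : ℝ) (z : ℂ) :
    (exData hρ hN q hq).approx (F.map shiftEquiv.toEmbedding) k (2 * R) (2 * z)
      = (2 : ℝ) ^ ρ * (exData hρ hN q hq).approx F k R z := by
  unfold PotData.approx
  rw [exB_double, Finset.sum_map, mul_sub, Finset.mul_sum]
  congr 1
  apply Finset.sum_congr rfl
  intro i _
  change mass ρ (shiftEquiv i) * (bnd N (i.1 + 1) (2 * R)
      - tlog ((exData hρ hN q hq).P (shiftEquiv i)) (1 / (k + 1)) (2 * z))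
    = (2 : ℝ) ^ ρ * (mass ρ i * (bnd N i.1 R
      - tlog ((exData hρ hN q hq).P i) (1 / (k + 1)) z))
  rw [mass_shift, bnd_shift]
  unfold tlog
  rw [exP_shift]
  ring

theorem exPot_double (z : ℂ) :
    (exData hρ hN q hq).pot (2 * z) = (((2 : ℝ) ^ ρ : ℝ) : EReal) * (exData hρ hN q hq).pot z := by
  set d := exData hρ hN q hq with hd
  have hc : (0 : ℝ) < (2 : ℝ) ^ ρ := by positivity
  have hcE : (0 : EReal) < (((2 : ℝ) ^ ρ : ℝ) : EReal) := EReal.coe_pos.2 hc
  have hnorm : ‖2 * z‖ = 2 * ‖z‖ := by simp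
  apply le_antisymm
  · rw [← EReal.div_le_iff_le_mul hcE (EReal.coe_ne_top _)]
    unfold PotData.pot
    refine le_iInf fun F => le_iInf fun k => ?_
    rw [EReal.div_le_iff_le_mul hcE (EReal.coe_ne_top _), ← EReal.coe_mul,
      ← exApprox_shift hρ hN q hq F k ‖z‖ z, ← hnorm]
    exact iInf_le_of_le _ (iInf_le_of_le k le_rfl)
  · conv_rhs => unfold PotData.pot
    refine le_iInf fun F => le_iInf fun k => ?_
    have h1 : F = (F.map shiftEquiv.symm.toEmbedding).map shiftEquiv.toEmbedding := by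
      rw [Finset.map_map]
      have : shiftEquiv.symm.toEmbedding.trans shiftEquiv.toEmbedding
          = Function.Embedding.refl _ := by
        ext x <;> simp
      rw [this, Finset.map_refl]
    rw [h1, hnorm, hd, exApprox_shift, EReal.coe_mul]
    apply mul_le_mul_of_nonneg_left _ hcE.le
    exact (exData hρ hN q hq).pot_le le_rfl _ _

theorem exB_mono {r s : ℝ} (hr : 0 ≤ r) (hrs : r ≤ s) :
    (exData hρ hN q hq).B r ≤ (exData hρ hN q hq).B s := by
  unfold PotData.B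
  apply Summable.tsum_le_tsum _ ((exData hρ hN q hq).summable r hr)
    ((exData hρ hN q hq).summable s (hr.trans hrs))
  intro i
  exact mul_le_mul_of_nonneg_left ((exData hρ hN q hq).b_mono i r s hr hrs)
    ((exData hρ hN q hq).m_nonneg i)

theorem exB_zpow (n : ℤ) :
    (exData hρ hN q hq).B ((2 : ℝ) ^ n) = ((2 : ℝ) ^ n) ^ ρ * (exData hρ hN q hq).B 1 := by
  induction n using Int.induction_on with
  | zero => simp
  | succ n ih =>
    rw [zpow_add_one₀ (by norm_num), mul_comm ((2 : ℝ) ^ (n : ℤ)) 2, exB_double, ih,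
      Real.mul_rpow (by norm_num) (by positivity)]
    ring
  | pred n ih =>
    have h1 : (2 : ℝ) ^ (-(n : ℤ)) = 2 * (2 : ℝ) ^ (-(n : ℤ) - 1) := by
      rw [zpow_sub_one₀ (by norm_num)]; ring
    rw [h1, exB_double, Real.mul_rpow (by norm_num) (by positivity), mul_assoc] at ih
    exact mul_left_cancel₀ (by positivity) ih

theorem exB_growth {R : ℝ} (hR : 0 ≤ R) :
    (exData hρ hN q hq).B R ≤ ((2 : ℝ) ^ ρ * (exData hρ hN q hq).B 1) * R ^ ρ := by
  have hB1 : 0 ≤ (exData hρ hN q hq).B 1 := by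
    unfold PotData.B
    exact tsum_nonneg fun i => mul_nonneg ((exData hρ hN q hq).m_nonneg i)
      ((exData hρ hN q hq).b_nonneg i zero_le_one)
  rcases hR.eq_or_lt with rfl | hR
  · rw [PotData.B_zero, Real.zero_rpow hρ.ne', mul_zero]
  · obtain ⟨n, hn1, hn2⟩ := exists_mem_Ico_zpow hR (by norm_num : (1 : ℝ) < 2)
    calc (exData hρ hN q hq).B R ≤ (exData hρ hN q hq).B ((2 : ℝ) ^ (n + 1)) :=
          exB_mono hρ hN q hq hR.le hn2.le
      _ = ((2 : ℝ) ^ (n + 1)) ^ ρ * (exData hρ hN q hq).B 1 := exB_zpow hρ hN q hq (n + 1)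
      _ = ((2 : ℝ) ^ ρ * (exData hρ hN q hq).B 1) * ((2 : ℝ) ^ n) ^ ρ := by
          rw [zpow_add_one₀ (by norm_num), Real.mul_rpow (by positivity) (by norm_num)]
          ring
      _ ≤ ((2 : ℝ) ^ ρ * (exData hρ hN q hq).B 1) * R ^ ρ := by gcongr

theorem exPot_mem : (exData hρ hN q hq).pot ∈ classU ρ := by
  have hB1 : 0 ≤ (exData hρ hN q hq).B 1 := by
    unfold PotData.B
    exact tsum_nonneg fun i => mul_nonneg ((exData hρ hN q hq).m_nonneg i)
      ((exData hρ hN q hq).b_nonneg i zero_le_one)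
  refine ⟨PotData.pot_isSubharmonicOn _, PotData.pot_zero _,
    (2 : ℝ) ^ ρ * (exData hρ hN q hq).B 1 + 1, by positivity, fun z => ?_⟩
  refine (PotData.pot_le_B _ z).trans (EReal.coe_le_coe_iff.2 ?_)
  refine (exB_growth hρ hN q hq (norm_nonneg z)).trans ?_
  apply mul_le_mul_of_nonneg_right _ (by positivity)
  linarith

theorem exPot_minimal : IsMinimal ρ (exData hρ hN q hq).pot := by
  refine ⟨exPot_mem hρ hN q hq, ?_⟩
  rintro ε hε ⟨w, ⟨hw, hw0, -⟩, hle⟩
  apply (exData hρ hN q hq).no_minorant hw hw0 _ hε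
  · intro z hz
    have := hle z
    rwa [hz, Real.one_rpow, mul_one] at this
  · intro z _
    refine (hle z).trans ?_
    have h1 : (0 : ℝ) ≤ ε * ‖z‖ ^ ρ := by positivity
    calc (exData hρ hN q hq).pot z - ((ε * ‖z‖ ^ ρ : ℝ) : EReal)
        ≤ (exData hρ hN q hq).pot z - ((0 : ℝ) : EReal) :=
          EReal.sub_le_sub le_rfl (EReal.coe_le_coe_iff.2 h1)
      _ = (exData hρ hN q hq).pot z := by simp

end

end Pool.Agent.H28.MinSub
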