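import Pool.Agent.H28.MinSub.Example2

open Metric Set Filter Topology InnerProductSpace Laplacian
open scoped ENNReal

namespace Pool.Agent.H28.MinSub

/-- The set in which the parameters `q_j` are dense. -/
def halfAnnulus (N : ℕ) : Set ℂ := {w | w.re ≤ 0 ∧ 1 ≤ ‖w‖ ∧ ‖w‖ ≤ 2 ^ N}

theorem exists_dense_seq (N : ℕ) :
    ∃ q : ℕ → ℂ, (∀ j, q j ∈ halfAnnulus N) ∧ ∀ w ∈ halfAnnulus N, w ∈ closure (range q) := by
  have hne : Nonempty (halfAnnulus N) := by
    refine ⟨⟨-1, ?_⟩⟩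
    refine ⟨by simp, by simp, ?_⟩
    simp only [norm_neg, norm_one]
    exact one_le_pow₀ (by norm_num)
  refine ⟨fun j => (TopologicalSpace.denseSeq (halfAnnulus N) j : ℂ),
    fun j => Subtype.coe_prop _, ?_⟩
  intro w hw
  have h1 : (⟨w, hw⟩ : halfAnnulus N) ∈
      closure (range (TopologicalSpace.denseSeq (halfAnnulus N))) :=
    TopologicalSpace.denseRange_denseSeq _ _
  have h2 := image_closure_subset_closure_image continuous_subtype_val
    (mem_image_of_mem (Subtype.val : halfAnnulus N → ℂ) h1)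
  rwa [← range_comp] at h2

section

variable {ρ : ℝ} (hρ : 0 < ρ) {N : ℕ} (hN : ρ < N) (q : ℕ → ℂ) (hq : ∀ j, 1 ≤ ‖q j‖)

/-- Poles accumulate at every point `z ≠ 0` with `Re z^N ≤ 0`. -/
theorem frequently_bot (hqd : ∀ w ∈ halfAnnulus N, w ∈ closure (range q)) {z : ℂ} (hz : z ≠ 0)
    (hre : (z ^ N).re ≤ 0) : ∃ᶠ y in 𝓝 z, (exData hρ hN q hq).pot y = ⊥ := by
  have hN0 : N ≠ 0 := by
    rintro rfl
    simp at hN
    linarith
  have hzn : 0 < ‖z‖ := norm_pos_iff.2 hz
  obtain ⟨n, hn1, hn2⟩ := exists_mem_Ico_zpow hzn (by norm_num : (1 : ℝ) < 2)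
  have h2n : (2 : ℂ) ^ n ≠ 0 := zpow_ne_zero _ (by norm_num)
  have h2nr : (0 : ℝ) < (2 : ℝ) ^ n := by positivity
  set u₀ : ℂ := (z / (2 : ℂ) ^ n) ^ N with hu₀
  have hu₀0 : u₀ ≠ 0 := pow_ne_zero _ (div_ne_zero hz h2n)
  have hu₀A : u₀ ∈ halfAnnulus N := by
    have hnorm : ‖u₀‖ = (‖z‖ / (2 : ℝ) ^ n) ^ N := by
      rw [hu₀, norm_pow, norm_div, norm_zpow, Complex.norm_ofNat]
    refine ⟨?_, ?_, ?_⟩
    · have : u₀ = z ^ N * (((((2 : ℝ) ^ n) ^ N)⁻¹ : ℝ) : ℂ) := by
        rw [hu₀, div_pow]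
        push_cast
        ring
      rw [this, Complex.re_mul_ofReal]
      exact mul_nonpos_of_nonpos_of_nonneg hre (by positivity)
    · rw [hnorm]
      apply one_le_pow₀
      rw [le_div_iff₀ h2nr, one_mul]
      exact hn1
    · rw [hnorm]
      gcongr
      rw [div_le_iff₀ h2nr]
      rw [zpow_add_one₀ (by norm_num)] at hn2
      linarith
  -- a local inverse of the power map
  set φ : ℂ → ℂ := fun u => z * (u / u₀) ^ ((N : ℂ)⁻¹) with hφ
  have hφ0 : φ u₀ = z := by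
    simp only [hφ]
    rw [div_self hu₀0, Complex.one_cpow, mul_one]
  have hφcont : ContinuousAt φ u₀ := by
    apply ContinuousAt.mul continuousAt_const
    apply ContinuousAt.cpow (by fun_prop) continuousAt_const
    rw [div_self hu₀0]
    exact Complex.one_mem_slitPlane
  have hφpow : ∀ u, (φ u / (2 : ℂ) ^ n) ^ N = u := by
    intro u
    have h1 : ((u / u₀) ^ ((N : ℂ)⁻¹)) ^ N = u / u₀ := Complex.cpow_nat_inv_pow _ hN0
    calc (φ u / (2 : ℂ) ^ n) ^ N = (z / (2 : ℂ) ^ n) ^ N * ((u / u₀) ^ ((N : ℂ)⁻¹)) ^ N := by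
          simp only [hφ]
          rw [← mul_pow]
          congr 1
          ring
      _ = u := by
          rw [h1, ← hu₀]
          field_simp
  rw [frequently_iff]
  intro V hV
  have h1 : φ ⁻¹' V ∈ 𝓝 u₀ := hφcont.preimage_mem_nhds (by rwa [hφ0])
  obtain ⟨u, hu, j, hj⟩ := mem_closure_iff_nhds.1 (hqd u₀ hu₀A) _ h1
  refine ⟨φ u, hu, ?_⟩
  apply PotData.pot_eq_bot (i := (n, j))
  change 1 - (φ u / (2 : ℂ) ^ n) ^ N / q j = 0
  rw [hφpow, ← hj, div_self, sub_self]
  intro h0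
  have := hq j
  rw [h0, norm_zero] at this
  linarith

theorem harmonicSet_subset (hqd : ∀ w ∈ halfAnnulus N, w ∈ closure (range q)) :
    harmonicSet (exData hρ hN q hq).pot ⊆ {z | 0 < (z ^ N).re} := by
  have hN0 : N ≠ 0 := by
    rintro rfl
    simp at hN
    linarith
  have hkey : ∀ z ∈ harmonicSet (exData hρ hN q hq).pot, z ≠ 0 → 0 < (z ^ N).re := by
    intro z hz hz0
    by_contra hcon
    rw [not_lt] at hcon
    obtain ⟨h, -, hev⟩ := hz
    have hfr := frequently_bot hρ hN q hq hqd hz0 hcon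
    obtain ⟨y, hy1, hy2⟩ := (hfr.and_eventually hev).exists
    rw [hy1] at hy2
    exact EReal.bot_ne_coe _ hy2
  intro z hz
  by_cases hz0 : z = 0
  · exfalso
    subst hz0
    -- nearby points with negative real part of the power are also in the harmonic set
    obtain ⟨h, hharm, hev⟩ := hz
    have hev2 : ∀ᶠ y in 𝓝 (0 : ℂ), y ∈ harmonicSet (exData hρ hN q hq).pot := by
      filter_upwards [hev.eventually_nhds, hharm.eventually] with y hy1 hy2
      exact ⟨h, hy2, hy1⟩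
    -- a root of `-1`
    set ζ : ℂ := (-1 : ℂ) ^ ((N : ℂ)⁻¹) with hζ
    have hζN : ζ ^ N = -1 := Complex.cpow_nat_inv_pow _ hN0
    have hζ0 : ζ ≠ 0 := by
      rintro h0
      rw [h0, zero_pow hN0] at hζN
      norm_num at hζN
    have htend : Tendsto (fun t : ℝ => (t : ℂ) * ζ) (𝓝[>] 0) (𝓝 0) := by
      have : Tendsto (fun t : ℝ => (t : ℂ) * ζ) (𝓝 0) (𝓝 (((0 : ℝ) : ℂ) * ζ)) :=
        (Complex.continuous_ofReal.mul continuous_const).tendsto 0
      rw [Complex.ofReal_zero, zero_mul] at this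
      exact this.mono_left nhdsWithin_le_nhds
    obtain ⟨t, ht1, ht2⟩ := ((htend.eventually hev2).and self_mem_nhdsWithin).exists
    have ht0 : (0 : ℝ) < t := ht2
    have h1 := hkey _ ht1 (mul_ne_zero (by exact_mod_cast ht0.ne') hζ0)
    rw [mul_pow, hζN, ← Complex.ofReal_pow] at h1
    simp only [mul_neg, mul_one, Complex.neg_re, Complex.ofReal_re] at h1
    have : 0 < t ^ N := by positivity
    linarith
  · exact hkey z hz hz0

/-- The region on which all the series are controlled. -/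
def region (N : ℕ) (R s : ℝ) : Set ℂ := {z | ‖z‖ < R ∧ s < (z ^ N).re}

theorem isOpen_region (N : ℕ) (R s : ℝ) : IsOpen (region N R s) := by
  apply IsOpen.inter (isOpen_lt continuous_norm continuous_const)
  exact isOpen_lt continuous_const (Complex.continuous_re.comp (continuous_pow N))

theorem exP_mem_slitPlane {z : ℂ} (hz : 0 < (z ^ N).re) (hre : ∀ j, (q j).re ≤ 0) (i : Idx) :
    (exData hρ hN q hq).P i z ∈ Complex.slitPlane := by
  change 1 - (z / (2 : ℂ) ^ i.1) ^ N / q i.2 ∈ Complex.slitPlane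
  set u : ℂ := (z / (2 : ℂ) ^ i.1) ^ N / q i.2 with hu
  rw [Complex.mem_slitPlane_iff]
  by_contra hcon
  push Not at hcon
  obtain ⟨h1, h2⟩ := hcon
  have him : u.im = 0 := by simpa using h2
  have hre1 : 1 ≤ u.re := by simpa using h1
  have hq0 : q i.2 ≠ 0 := by
    intro h0
    have := hq i.2
    rw [h0, norm_zero] at this
    linarith
  have huC : u = (u.re : ℂ) := Complex.ext (by simp) (by simp [him])
  have h3 : (z / (2 : ℂ) ^ i.1) ^ N = u * q i.2 := by
    rw [hu]; field_simp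
  have h4 : z ^ N * (((((2 : ℝ) ^ i.1) ^ N)⁻¹ : ℝ) : ℂ) = (u.re : ℂ) * q i.2 := by
    rw [← huC, ← h3, div_pow]
    push_cast
    ring
  have h5 := congrArg Complex.re h4
  rw [Complex.re_mul_ofReal, Complex.re_ofReal_mul] at h5
  have h6 : 0 < (z ^ N).re * (((2 : ℝ) ^ i.1) ^ N)⁻¹ := by positivity
  have h7 : u.re * (q i.2).re ≤ 0 := mul_nonpos_of_nonneg_of_nonpos (by linarith) (hre i.2)
  linarith

end

end Pool.Agent.H28.MinSub
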