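import Pool.Agent.H28.MinSub.HarmSet

open Metric Set Filter Topology InnerProductSpace Laplacian
open scoped ENNReal

namespace Pool.Agent.H28.MinSub

section

variable {ρ : ℝ} (hρ : 0 < ρ) {N : ℕ} (hN : ρ < N) (q : ℕ → ℂ) (hq : ∀ j, 1 ≤ ‖q j‖)

theorem norm_clog_le (x : ℂ) : ‖Complex.log x‖ ≤ |Real.log ‖x‖| + Real.pi := by
  have h1 : Complex.log x = (Real.log ‖x‖ : ℂ) + (Complex.arg x : ℂ) * Complex.I := by
    apply Complex.ext <;> simp [Complex.log_re, Complex.log_im]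
  calc ‖Complex.log x‖ ≤ ‖(Real.log ‖x‖ : ℂ)‖ + ‖(Complex.arg x : ℂ) * Complex.I‖ := by
        rw [h1]; exact norm_add_le _ _
    _ = |Real.log ‖x‖| + |Complex.arg x| := by
        rw [norm_mul, Complex.norm_real, Complex.norm_real, Complex.norm_I, mul_one,
          Real.norm_eq_abs, Real.norm_eq_abs]
    _ ≤ |Real.log ‖x‖| + Real.pi := by
        gcongr
        exact Complex.abs_arg_le_pi x

include hq in
theorem norm_u_le {R : ℝ} {z : ℂ} (hz : ‖z‖ < R) (i : Idx) :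
    ‖(z / (2 : ℂ) ^ i.1) ^ N / q i.2‖ ≤ (R / (2 : ℝ) ^ i.1) ^ N := by
  have h1 : 0 ≤ (‖z‖ / (2 : ℝ) ^ i.1) ^ N := by positivity
  rw [norm_div, norm_pow, norm_div, norm_zpow, Complex.norm_ofNat]
  refine (div_le_self h1 (hq i.2)).trans ?_
  gcongr

/-- Uniform bound of the logarithms by a constant multiple of `bnd`. -/
theorem exists_log_bound (hre : ∀ j, (q j).re ≤ 0) (hq2 : ∀ j, ‖q j‖ ≤ 2 ^ N) {R s : ℝ}
    (hR : 0 < R) (hs : 0 < s) :
    ∃ C : ℝ, ∀ i : Idx, ∀ z ∈ region N R s,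
      ‖Complex.log ((exData hρ hN q hq).P i z)‖ ≤ C * bnd N i.1 R := by
  have hN0 : 0 < N := by
    have : (0 : ℝ) < N := hρ.trans hN
    exact_mod_cast this
  -- choose the scale beyond which everything is small
  obtain ⟨n₀, hn₀⟩ : ∃ n₀ : ℕ, R * 2 ≤ (2 : ℝ) ^ n₀ := by
    obtain ⟨n₀, hn₀⟩ := pow_unbounded_of_one_lt (R * 2) (by norm_num : (1 : ℝ) < 2)
    exact ⟨n₀, hn₀.le⟩
  set a : ℝ := s * (((2 : ℝ) ^ n₀) ^ N)⁻¹ / 2 ^ N with ha
  have ha0 : 0 < a := by positivity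
  set L : ℝ := |Real.log a| + Real.pi with hL
  have hL0 : 0 ≤ L := by positivity
  set β₀ : ℝ := bnd N n₀ R with hβ₀
  have hβ₀0 : 0 < β₀ := by
    rw [hβ₀]
    unfold bnd
    apply Real.log_pos
    have : 0 < (R / (2 : ℝ) ^ (n₀ : ℤ)) ^ N := by positivity
    linarith
  refine ⟨max 3 (1 + L / β₀), ?_⟩
  intro i z hz
  obtain ⟨hzR, hzs⟩ := hz
  have hzs0 : 0 < (z ^ N).re := hs.trans hzs
  set u : ℂ := (z / (2 : ℂ) ^ i.1) ^ N / q i.2 with hu
  have hPu : (exData hρ hN q hq).P i z = 1 - u := rfl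
  rw [hPu]
  have hbnd0 : 0 ≤ bnd N i.1 R := bnd_nonneg hR.le
  have hux := norm_u_le q hq hzR (N := N) i
  rw [← hu] at hux
  set x : ℝ := (R / (2 : ℝ) ^ i.1) ^ N with hx
  have hx0 : 0 ≤ x := by positivity
  by_cases hn : (n₀ : ℤ) ≤ i.1
  · -- small argument
    have hxhalf : x ≤ 1 / 2 := by
      have h1 : R / (2 : ℝ) ^ i.1 ≤ 1 / 2 := by
        rw [div_le_iff₀ (by positivity)]
        have h2 : (2 : ℝ) ^ (n₀ : ℤ) ≤ (2 : ℝ) ^ i.1 := zpow_le_zpow_right₀ (by norm_num) hn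
        rw [zpow_natCast] at h2
        linarith
      have h3 : 0 ≤ R / (2 : ℝ) ^ i.1 := by positivity
      calc x ≤ (1 / 2) ^ N := by rw [hx]; gcongr
        _ ≤ (1 / 2) ^ 1 := pow_le_pow_of_le_one (by norm_num) (by norm_num) hN0
        _ = 1 / 2 := by norm_num
    have h1 : ‖Complex.log (1 - u)‖ ≤ 3 / 2 * ‖u‖ := by
      have := Complex.norm_log_one_add_half_le_self (z := -u) (by rw [norm_neg]; linarith)
      rwa [norm_neg, ← sub_eq_add_neg] at this
    have h2 : x / (1 + x) ≤ bnd N i.1 R := by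
      unfold bnd
      rw [← hx]
      have := Real.one_sub_inv_le_log_of_pos (by linarith : 0 < 1 + x)
      have h3 : 1 - (1 + x)⁻¹ = x / (1 + x) := by field_simp; ring
      linarith
    have h3 : x ≤ 2 * bnd N i.1 R := by
      have h4 : x / 2 ≤ x / (1 + x) := by
        apply div_le_div_of_nonneg_left hx0 (by linarith) (by linarith)
      linarith
    calc ‖Complex.log (1 - u)‖ ≤ 3 / 2 * x := h1.trans (by linarith)
      _ ≤ 3 * bnd N i.1 R := by linarith
      _ ≤ max 3 (1 + L / β₀) * bnd N i.1 R :=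
          mul_le_mul_of_nonneg_right (le_max_left _ _) hbnd0
  · -- large argument
    rw [not_le] at hn
    have hanti : β₀ ≤ bnd N i.1 R := by
      rw [hβ₀]
      unfold bnd
      apply Real.log_le_log
      · have : 0 ≤ (R / (2 : ℝ) ^ (n₀ : ℤ)) ^ N := by positivity
        linarith
      · gcongr
        · norm_num
    have hup : ‖1 - u‖ ≤ 1 + x := by
      refine (norm_sub_le _ _).trans ?_
      rw [norm_one]
      linarith
    have hlow : a ≤ ‖1 - u‖ := by
      have hqpos : 0 < ‖q i.2‖ := by linarith [hq i.2]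
      have hq0 : q i.2 ≠ 0 := norm_pos_iff.1 hqpos
      have h1 : (1 - u) * q i.2 = q i.2 - (z / (2 : ℂ) ^ i.1) ^ N := by
        rw [hu]; field_simp
      have h2 : ‖1 - u‖ * ‖q i.2‖ = ‖q i.2 - (z / (2 : ℂ) ^ i.1) ^ N‖ := by
        rw [← norm_mul, h1]
      have h3 : s * (((2 : ℝ) ^ n₀) ^ N)⁻¹ ≤ ‖q i.2 - (z / (2 : ℂ) ^ i.1) ^ N‖ := by
        have h4 : (z / (2 : ℂ) ^ i.1) ^ N = z ^ N * (((((2 : ℝ) ^ i.1) ^ N)⁻¹ : ℝ) : ℂ) := by
          rw [div_pow]; push_cast; ring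
        have h5 : ((z / (2 : ℂ) ^ i.1) ^ N).re = (z ^ N).re * (((2 : ℝ) ^ i.1) ^ N)⁻¹ := by
          rw [h4, Complex.re_mul_ofReal]
        have h6 : s * (((2 : ℝ) ^ n₀) ^ N)⁻¹ ≤ (z ^ N).re * (((2 : ℝ) ^ i.1) ^ N)⁻¹ := by
          have h7 : (2 : ℝ) ^ i.1 ≤ (2 : ℝ) ^ n₀ := by
            rw [← zpow_natCast]
            exact zpow_le_zpow_right₀ (by norm_num) hn.le
          gcongr
        calc s * (((2 : ℝ) ^ n₀) ^ N)⁻¹ ≤ ((z / (2 : ℂ) ^ i.1) ^ N).re := by rw [h5]; exact h6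
          _ ≤ ((z / (2 : ℂ) ^ i.1) ^ N - q i.2).re := by
              rw [Complex.sub_re]
              have := hre i.2
              linarith
          _ ≤ ‖(z / (2 : ℂ) ^ i.1) ^ N - q i.2‖ := Complex.re_le_norm _
          _ = _ := norm_sub_rev _ _
      rw [ha, div_le_iff₀ (by positivity)]
      calc s * (((2 : ℝ) ^ n₀) ^ N)⁻¹ ≤ ‖1 - u‖ * ‖q i.2‖ := by rw [h2]; exact h3
        _ ≤ ‖1 - u‖ * 2 ^ N := by
            apply mul_le_mul_of_nonneg_left (hq2 i.2) (norm_nonneg _)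
    have hpos : 0 < ‖1 - u‖ := ha0.trans_le hlow
    have hlogup : Real.log ‖1 - u‖ ≤ bnd N i.1 R := by
      unfold bnd
      exact Real.log_le_log hpos hup
    have hloglow : -|Real.log a| ≤ Real.log ‖1 - u‖ :=
      (neg_abs_le _).trans (Real.log_le_log ha0 hlow)
    have habs : |Real.log ‖1 - u‖| ≤ bnd N i.1 R + |Real.log a| := by
      rw [abs_le]
      constructor
      · linarith
      · have := abs_nonneg (Real.log a)
        linarith
    calc ‖Complex.log (1 - u)‖ ≤ |Real.log ‖1 - u‖| + Real.pi := norm_clog_le _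
      _ ≤ bnd N i.1 R + L := by rw [hL]; linarith
      _ ≤ bnd N i.1 R + L / β₀ * bnd N i.1 R := by
          have : L ≤ L / β₀ * bnd N i.1 R := by
            rw [div_mul_eq_mul_div, le_div_iff₀ hβ₀0]
            exact mul_le_mul_of_nonneg_left hanti hL0
          linarith
      _ = (1 + L / β₀) * bnd N i.1 R := by ring
      _ ≤ max 3 (1 + L / β₀) * bnd N i.1 R :=
          mul_le_mul_of_nonneg_right (le_max_right _ _) hbnd0

theorem subset_harmonicSet (hre : ∀ j, (q j).re ≤ 0) (hq2 : ∀ j, ‖q j‖ ≤ 2 ^ N) :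
    {z | 0 < (z ^ N).re} ⊆ harmonicSet (exData hρ hN q hq).pot := by
  intro z₀ hz₀
  simp only [mem_ofPred_eq] at hz₀
  set R : ℝ := ‖z₀‖ + 1 with hR
  have hR0 : 0 < R := by positivity
  set s : ℝ := (z₀ ^ N).re / 2 with hs
  have hs0 : 0 < s := by positivity
  have hz₀mem : z₀ ∈ region N R s := ⟨by linarith, by linarith⟩
  obtain ⟨C, hC⟩ := exists_log_bound hρ hN q hq hre hq2 hR0 hs0
  set d := exData hρ hN q hq with hd
  set f : Idx → ℂ → ℂ := fun i z => (d.m i : ℂ) * Complex.log (d.P i z) with hf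
  have hmaj : Summable fun i => C * (d.m i * d.b i R) := (d.summable R hR0.le).mul_left C
  have hfbound : ∀ i, ∀ z ∈ region N R s, ‖f i z‖ ≤ C * (d.m i * d.b i R) := by
    intro i z hz
    simp only [hf]
    rw [norm_mul, Complex.norm_real, Real.norm_of_nonneg (d.m_nonneg i)]
    calc d.m i * ‖Complex.log (d.P i z)‖ ≤ d.m i * (C * bnd N i.1 R) :=
          mul_le_mul_of_nonneg_left (hC i z hz) (d.m_nonneg i)
      _ = C * (d.m i * d.b i R) := by
          change _ = C * (d.m i * bnd N i.1 R)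
          ring
  have hfdiff : ∀ i, DifferentiableOn ℂ (f i) (region N R s) := by
    intro i z hz
    have hslit := exP_mem_slitPlane hρ hN q hq (hs0.trans hz.2) hre i
    apply DifferentiableAt.differentiableWithinAt
    exact ((d.P_diff i z).clog hslit).const_mul _
  have hFdiff : DifferentiableOn ℂ (fun z => ∑' i, f i z) (region N R s) :=
    Complex.differentiableOn_tsum_of_summable_norm hmaj hfdiff (isOpen_region N R s) hfbound
  have hopen : region N R s ∈ 𝓝 z₀ := (isOpen_region N R s).mem_nhds hz₀mem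
  have hana : AnalyticAt ℂ (fun z => ∑' i, f i z) z₀ := hFdiff.analyticAt hopen
  refine ⟨fun z => (∑' i, f i z).re, hana.harmonicAt_re, ?_⟩
  filter_upwards [hopen] with z hz
  have hsum : Summable fun i => f i z :=
    Summable.of_norm_bounded hmaj fun i => hfbound i z hz
  have hPne : ∀ i, d.P i z ≠ 0 := fun i =>
    Complex.slitPlane_ne_zero (exP_mem_slitPlane hρ hN q hq (hs0.trans hz.2) hre i)
  have hre2 : ∀ i, (f i z).re = d.m i * Real.log ‖d.P i z‖ := by
    intro i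
    simp only [hf]
    rw [Complex.re_ofReal_mul, Complex.log_re]
  have hs' : Summable fun i => d.m i * Real.log ‖d.P i z‖ := by
    have := Complex.reCLM.summable hsum
    refine this.congr fun i => ?_
    simp only [Complex.reCLM_apply]
    exact hre2 i
  rw [d.pot_eq_tsum hPne hs']
  congr 1
  rw [Complex.re_tsum hsum]
  apply tsum_congr
  intro i
  exact (hre2 i).symm

end

end Pool.Agent.H28.MinSub
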