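import Pool.Agent.H28.MinSub.MaxPrinciple

open Metric Set Filter Topology
open scoped ENNReal

namespace Pool.Agent.H28.MinSub

/-- Sub-mean value inequality for `log |P|`. -/
theorem log_norm_le_circleAverage {P : ℂ → ℂ} (hP : Differentiable ℂ P) {c : ℂ} {r : ℝ}
    (hr : 0 < r) (hc : P c ≠ 0) :
    Real.log ‖P c‖ ≤ Real.circleAverage (fun z => Real.log ‖P z‖) c r := by
  have hana : AnalyticOnNhd ℂ P (closedBall c |r|) := fun z _ => hP.analyticAt z
  rw [AnalyticOnNhd.circleAverage_log_norm hr.ne' hana hc]
  have h1 : 0 ≤ ∑ᶠ u, (MeromorphicOn.divisor P (closedBall c |r|) u : ℝ)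
      * Real.log (r * ‖c - u‖⁻¹) := by
    apply finsum_nonneg
    intro u
    by_cases hu : u ∈ closedBall c |r|
    · apply mul_nonneg
      · have := MeromorphicOn.AnalyticOnNhd.divisor_nonneg hana u
        exact_mod_cast this
      · by_cases huc : u = c
        · simp [huc]
        · apply Real.log_nonneg
          have h2 : 0 < ‖c - u‖ := by
            rw [norm_pos_iff, sub_ne_zero]
            exact fun h => huc h.symm
          have h3 : ‖c - u‖ ≤ r := by
            rw [mem_closedBall, dist_eq_norm, abs_of_pos hr, norm_sub_rev] at hu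
            exact hu
          rw [← div_eq_mul_inv, le_div_iff₀ h2]
          linarith
    · have : MeromorphicOn.divisor P (closedBall c |r|) u = 0 :=
        Function.locallyFinsuppWithin.apply_eq_zero_of_notMem _ hu
      simp [this]
  linarith

/-- The truncated logarithm `log (max |P| δ)`. -/
noncomputable def tlog (P : ℂ → ℂ) (δ : ℝ) (z : ℂ) : ℝ := Real.log (max ‖P z‖ δ)

theorem continuous_tlog {P : ℂ → ℂ} (hP : Continuous P) {δ : ℝ} (hδ : 0 < δ) :
    Continuous (tlog P δ) := by
  unfold tlog
  apply Continuous.log
  · fun_prop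
  · intro z
    exact (lt_max_of_lt_right hδ).ne'

/-- Sub-mean value inequality for the truncated logarithm. -/
theorem tlog_le_circleAverage {P : ℂ → ℂ} (hP : Differentiable ℂ P) (hP0 : ∃ z, P z ≠ 0)
    {δ : ℝ} (hδ : 0 < δ) (c : ℂ) {r : ℝ} (hr : 0 < r) :
    tlog P δ c ≤ Real.circleAverage (tlog P δ) c r := by
  have hcont := continuous_tlog hP.continuous hδ
  have hint : CircleIntegrable (tlog P δ) c r := hcont.continuousOn.circleIntegrable hr.le
  have h1 : Real.log δ ≤ Real.circleAverage (tlog P δ) c r := by
    have h2 : Real.circleAverage (fun _ => Real.log δ) c r ≤ Real.circleAverage (tlog P δ) c r := by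
      apply Real.circleAverage_mono (circleIntegrable_const _ _ _) hint
      intro z _
      exact Real.log_le_log hδ (le_max_right _ _)
    rwa [Real.circleAverage_const] at h2
  by_cases hc : P c = 0
  · have : tlog P δ c = Real.log δ := by simp [tlog, hc, hδ.le]
    rw [this]; exact h1
  · have h3 : Real.log ‖P c‖ ≤ Real.circleAverage (tlog P δ) c r := by
      refine (log_norm_le_circleAverage hP hr hc).trans ?_
      set f₂ : ℂ → ℝ := fun z => if P z = 0 then Real.log δ else Real.log ‖P z‖ with hf₂
      have hcod : (fun z => Real.log ‖P z‖) =ᶠ[codiscreteWithin (sphere c |r|)] f₂ := by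
        have hana : AnalyticOnNhd ℂ P univ := fun z _ => hP.analyticAt z
        rcases hana.eqOn_zero_or_eventually_ne_zero_of_preconnected isPreconnected_univ with h | h
        · obtain ⟨z, hz⟩ := hP0
          exact absurd (h (mem_univ z)) hz
        · have h' : ∀ᶠ x in codiscreteWithin (sphere c |r|), P x ≠ 0 :=
            h.filter_mono (Filter.codiscreteWithin_mono (subset_univ _))
          filter_upwards [h'] with z hz
          simp [hf₂, hz]
      have hint1 : CircleIntegrable (fun z => Real.log ‖P z‖) c r := by
        apply MeromorphicOn.circleIntegrable_log_norm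
        intro z _
        exact (hP.analyticAt z).meromorphicAt
      have hint2 : CircleIntegrable f₂ c r := hint1.congr_codiscreteWithin hcod
      rw [Real.circleAverage_congr_codiscreteWithin hcod hr.ne']
      apply Real.circleAverage_mono hint2 hint
      intro z _
      by_cases hz : P z = 0
      · simp [hf₂, hz, tlog, hδ.le]
      · simp only [hf₂, hz, if_false, tlog]
        exact Real.log_le_log (norm_pos_iff.2 hz) (le_max_left _ _)
    unfold tlog at h1 h3 ⊢
    rcases le_total ‖P c‖ δ with h | h
    · rw [max_eq_right h]; exact h1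
    · rw [max_eq_left h]; exact h3

end Pool.Agent.H28.MinSub
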