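import Pool.Agent.H28.MinSub.Defs

open Metric Set Filter Topology InnerProductSpace Laplacian
open scoped ENNReal

namespace Pool.Agent.H28.MinSub

theorem circleMean_le {v : ℂ → EReal} {c : ℂ} {r : ℝ} {u : ℂ → ℝ}
    (hu : ContinuousOn u (sphere c r)) (h : ∀ z ∈ sphere c r, v z ≤ (u z : EReal)) :
    circleMean v c r ≤ ((Real.circleAverage u c r : ℝ) : EReal) :=
  iInf_le_of_le u (iInf_le_of_le hu (iInf_le_of_le h le_rfl))

theorem circleIntegrable_of_continuousOn {u : ℂ → ℝ} {c : ℂ} {r : ℝ} (hr : 0 ≤ r)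
    (hu : ContinuousOn u (sphere c r)) : CircleIntegrable u c r :=
  hu.circleIntegrable hr

/-- Monotonicity: `circleMean` of a continuous function is at least its circle average. -/
theorem le_circleMean_of_continuousOn {h : ℂ → ℝ} {c : ℂ} {r : ℝ} (hr : 0 ≤ r)
    (hh : ContinuousOn h (sphere c r)) {v : ℂ → EReal}
    (hv : ∀ z ∈ sphere c r, (h z : EReal) ≤ v z) :
    ((Real.circleAverage h c r : ℝ) : EReal) ≤ circleMean v c r := by
  refine le_iInf fun u => le_iInf fun hu => le_iInf fun huv => ?_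
  rw [EReal.coe_le_coe_iff]
  apply Real.circleAverage_mono (hh.circleIntegrable hr) (hu.circleIntegrable hr)
  intro z hz
  rw [abs_of_nonneg hr] at hz
  exact EReal.coe_le_coe_iff.1 ((hv z hz).trans (huv z hz))

/-- Strict inequality for circle averages of continuous functions. -/
theorem circleAverage_lt {u : ℂ → ℝ} {c : ℂ} {r M : ℝ} (hr : 0 < r) (hu : Continuous u)
    (hle : ∀ z ∈ sphere c r, u z ≤ M) (hlt : u (c + r) < M) :
    Real.circleAverage u c r < M := by
  have hcont : Continuous fun θ : ℝ => M - u (circleMap c r θ) := by fun_prop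
  have h1 : 0 < ∫ θ in (0 : ℝ)..2 * Real.pi, (M - u (circleMap c r θ)) := by
    apply intervalIntegral.integral_pos (by positivity) hcont.continuousOn
    · intro θ _
      have := hle _ (circleMap_mem_sphere c hr.le θ)
      linarith
    · refine ⟨0, ⟨le_rfl, by positivity⟩, ?_⟩
      have : circleMap c r 0 = c + r := by simp [circleMap]
      rw [this]
      linarith
  have h2 : ∫ θ in (0 : ℝ)..2 * Real.pi, (M - u (circleMap c r θ))
      = 2 * Real.pi * M - ∫ θ in (0 : ℝ)..2 * Real.pi, u (circleMap c r θ) := by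
    rw [intervalIntegral.integral_sub (by simp)
      (Continuous.intervalIntegrable (by fun_prop) _ _)]
    simp
  rw [h2] at h1
  unfold Real.circleAverage
  rw [smul_eq_mul, inv_mul_lt_iff₀ (by positivity)]
  linarith

/-- **Maximum principle.** -/
theorem max_principle {Ω : Set ℂ} (hΩ : IsOpen Ω) (hb : Bornology.IsBounded Ω) {g : ℂ → EReal}
    (htop : ∀ z ∈ Ω, g z < ⊤)
    (husc : ∀ z ∈ Ω, ∀ a : EReal, g z < a → ∀ᶠ w in 𝓝 z, g w < a)
    (hmean : ∀ z ∈ Ω, ∃ R > 0, closedBall z R ⊆ Ω ∧ ∀ r, 0 < r → r ≤ R → g z ≤ circleMean g z r)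
    {c : ℝ} (hbd : ∀ q ∈ frontier Ω, ∀ c' : ℝ, c < c' → ∀ᶠ z in 𝓝[Ω] q, g z ≤ (c' : EReal)) :
    ∀ z ∈ Ω, g z ≤ (c : EReal) := by
  by_contra hcon
  push Not at hcon
  obtain ⟨z₁, hz₁, hgz₁⟩ := hcon
  obtain ⟨c', hc', hc'g⟩ := EReal.lt_iff_exists_real_btwn.1 hgz₁
  rw [EReal.coe_lt_coe_iff] at hc'
  set K : Set ℂ := {z | z ∈ Ω ∧ (c' : EReal) ≤ g z} with hK
  have hKclosed : IsClosed K := by
    rw [← isOpen_compl_iff, isOpen_iff_mem_nhds]
    intro z hz
    by_cases hzΩ : z ∈ Ω
    · have hlt : g z < (c' : EReal) := by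
        by_contra h
        exact hz ⟨hzΩ, not_lt.1 h⟩
      filter_upwards [husc z hzΩ _ hlt] with w hw hwK
      exact absurd hwK.2 (not_le.2 hw)
    · by_cases hzf : z ∈ frontier Ω
      · obtain ⟨c'', h1, h2⟩ := exists_between hc'
        have := hbd z hzf c'' h1
        rw [eventually_nhdsWithin_iff] at this
        filter_upwards [this] with w hw hwK
        have h3 := hw hwK.1
        have h4 := hwK.2.trans h3
        rw [EReal.coe_le_coe_iff] at h4
        linarith
      · have : z ∉ closure Ω := by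
          intro hcl
          exact hzf ⟨hcl, by rwa [hΩ.interior_eq]⟩
        have h1 : (closure Ω)ᶜ ∈ 𝓝 z := isClosed_closure.isOpen_compl.mem_nhds this
        filter_upwards [h1] with w hw hwK
        exact hw (subset_closure hwK.1)
  have hKcomp : IsCompact K :=
    Metric.isCompact_of_isClosed_isBounded hKclosed (hb.subset fun z hz => hz.1)
  have hKne : K.Nonempty := ⟨z₁, hz₁, hc'g.le⟩
  have huscK : UpperSemicontinuousOn g K := by
    intro z hz a ha
    exact (husc z hz.1 a ha).filter_mono nhdsWithin_le_nhds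
  obtain ⟨z₂, hz₂, hmax⟩ := huscK.exists_isMaxOn hKne hKcomp
  obtain ⟨M, hM⟩ : ∃ M : ℝ, g z₂ = (M : EReal) := by
    have h1 : g z₂ ≠ ⊤ := (htop z₂ hz₂.1).ne
    have h2 : g z₂ ≠ ⊥ := by
      intro h
      have := hz₂.2
      rw [h] at this
      exact absurd this (by simp)
    exact ⟨(g z₂).toReal, (EReal.coe_toReal h1 h2).symm⟩
  have hMc : c' ≤ M := by
    have := hz₂.2
    rw [hM, EReal.coe_le_coe_iff] at this
    exact this
  have hleM : ∀ z ∈ Ω, g z ≤ (M : EReal) := by
    intro z hz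
    by_cases hzK : z ∈ K
    · have := hmax hzK
      simp only [mem_ofPred_eq] at this
      rwa [hM] at this
    · have : g z < (c' : EReal) := by
        by_contra h
        exact hzK ⟨hz, not_lt.1 h⟩
      exact this.le.trans (EReal.coe_le_coe_iff.2 hMc)
  set E : Set ℂ := {z | z ∈ Ω ∧ (M : EReal) ≤ g z} with hE
  have hEK : E ⊆ K := fun z hz => ⟨hz.1, (EReal.coe_le_coe_iff.2 hMc).trans hz.2⟩
  have hEclosed : IsClosed E := by
    rw [← isOpen_compl_iff, isOpen_iff_mem_nhds]
    intro z hz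
    by_cases hzK : z ∈ K
    · have hlt : g z < (M : EReal) := by
        by_contra h
        exact hz ⟨hzK.1, not_lt.1 h⟩
      filter_upwards [husc z hzK.1 _ hlt] with w hw hwE
      exact absurd hwE.2 (not_le.2 hw)
    · filter_upwards [hKclosed.isOpen_compl.mem_nhds hzK] with w hw hwE
      exact hw (hEK hwE)
  have hEcomp : IsCompact E := hKcomp.of_isClosed_subset hEclosed hEK
  have hEne : E.Nonempty := ⟨z₂, hz₂.1, hM.ge⟩
  obtain ⟨z₀, hz₀, hre⟩ := hEcomp.exists_isMaxOn hEne Complex.continuous_re.continuousOn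
  obtain ⟨R, hR, hRΩ, hmeanR⟩ := hmean z₀ hz₀.1
  have hz₃Ω : z₀ + R ∈ Ω := by
    apply hRΩ
    simp [mem_closedBall, dist_eq_norm, abs_of_pos hR]
  have hz₃ : g (z₀ + R) < (M : EReal) := by
    by_contra h
    have h1 : (z₀ + (R : ℂ)) ∈ E := ⟨hz₃Ω, not_lt.1 h⟩
    have h2 := hre h1
    simp only [mem_ofPred_eq, Complex.add_re, Complex.ofReal_re] at h2
    linarith
  obtain ⟨M', hM'1, hM'2⟩ := EReal.lt_iff_exists_real_btwn.1 hz₃
  rw [EReal.coe_lt_coe_iff] at hM'2
  have hev := husc (z₀ + R) hz₃Ω _ hM'1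
  rw [Metric.eventually_nhds_iff] at hev
  obtain ⟨s, hs, hsg⟩ := hev
  set u : ℂ → ℝ := fun z => M - (M - M') * max 0 (1 - ‖z - (z₀ + R)‖ / s) with hu
  have hucont : Continuous u := by
    rw [hu]; fun_prop
  have hbump : ∀ z, max 0 (1 - ‖z - (z₀ + R)‖ / s) ≤ 1 := by
    intro z
    apply max_le zero_le_one
    have : 0 ≤ ‖z - (z₀ + R)‖ / s := by positivity
    linarith
  have hdom : ∀ z ∈ sphere z₀ R, g z ≤ (u z : EReal) := by
    intro z hz
    have hzΩ : z ∈ Ω := hRΩ (sphere_subset_closedBall hz)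
    by_cases hzs : dist z (z₀ + R) < s
    · refine (hsg hzs).le.trans (EReal.coe_le_coe_iff.2 ?_)
      have h1 := hbump z
      have : (M - M') * max 0 (1 - ‖z - (z₀ + R)‖ / s) ≤ (M - M') * 1 :=
        mul_le_mul_of_nonneg_left h1 (by linarith)
      simp only [hu]
      linarith
    · have h1 : max 0 (1 - ‖z - (z₀ + R)‖ / s) = 0 := by
        apply max_eq_left
        rw [not_lt, dist_eq_norm] at hzs
        have : 1 ≤ ‖z - (z₀ + R)‖ / s := by rwa [le_div_iff₀ hs, one_mul]
        linarith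
      have h2 : u z = M := by simp [hu, h1]
      rw [h2]
      exact hleM z hzΩ
  have h1 : g z₀ ≤ ((Real.circleAverage u z₀ R : ℝ) : EReal) :=
    (hmeanR R hR le_rfl).trans (circleMean_le hucont.continuousOn hdom)
  have h2 : Real.circleAverage u z₀ R < M := by
    apply circleAverage_lt hR hucont
    · intro z _
      simp only [hu]
      have : 0 ≤ (M - M') * max 0 (1 - ‖z - (z₀ + R)‖ / s) :=
        mul_nonneg (by linarith) (le_max_left _ _)
      linarith
    · simp only [hu, sub_self, norm_zero, zero_div, sub_zero, max_eq_right zero_le_one, mul_one]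
      linarith
  have h3 := hz₀.2.trans h1
  rw [EReal.coe_le_coe_iff] at h3
  linarith

end Pool.Agent.H28.MinSub
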