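import Pool.Agent.H28.MinSub.Jensen

open Metric Set Filter Topology
open scoped ENNReal

namespace Pool.Agent.H28.MinSub

/-- Data for a potential `∑ m_i log |P_i z|`. -/
structure PotData (ι : Type) where
  m : ι → ℝ
  P : ι → ℂ → ℂ
  b : ι → ℝ → ℝ
  m_pos : ∀ i, 0 < m i
  P_diff : ∀ i, Differentiable ℂ (P i)
  P_zero : ∀ i, P i 0 = 1
  b_zero : ∀ i, b i 0 = 0
  b_mono : ∀ i r s, 0 ≤ r → r ≤ s → b i r ≤ b i s
  norm_le : ∀ i z, ‖P i z‖ ≤ Real.exp (b i ‖z‖)
  summable : ∀ R, 0 ≤ R → Summable fun i => m i * b i R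

namespace PotData

variable {ι : Type} (d : PotData ι)

theorem m_nonneg (i : ι) : 0 ≤ d.m i := (d.m_pos i).le

theorem b_nonneg (i : ι) {R : ℝ} (hR : 0 ≤ R) : 0 ≤ d.b i R := by
  rw [← d.b_zero i]
  exact d.b_mono i 0 R le_rfl hR

/-- The total of the upper bounds. -/
noncomputable def B (R : ℝ) : ℝ := ∑' i, d.m i * d.b i R

/-- Finite truncated approximations from above. -/
noncomputable def approx (F : Finset ι) (k : ℕ) (R : ℝ) (z : ℂ) : ℝ :=
  d.B R - ∑ i ∈ F, d.m i * (d.b i R - tlog (d.P i) (1 / (k + 1)) z)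

/-- The potential `∑ m_i log |P_i z|`, with values in `[-∞, ∞)`. -/
noncomputable def pot (z : ℂ) : EReal :=
  ⨅ (F : Finset ι) (k : ℕ), ((d.approx F k ‖z‖ z : ℝ) : EReal)

theorem delta_pos (k : ℕ) : (0 : ℝ) < 1 / ((k : ℝ) + 1) := by positivity

theorem delta_le_one (k : ℕ) : 1 / ((k : ℝ) + 1) ≤ 1 := by
  rw [div_le_one (by positivity)]
  have : (0 : ℝ) ≤ k := Nat.cast_nonneg k
  linarith

theorem tlog_le {i : ι} {R : ℝ} {z : ℂ} (hz : ‖z‖ ≤ R) (k : ℕ) :
    tlog (d.P i) (1 / (k + 1)) z ≤ d.b i R := by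
  unfold tlog
  have hR : 0 ≤ R := (norm_nonneg z).trans hz
  rw [Real.log_le_iff_le_exp (lt_max_of_lt_right (delta_pos k))]
  apply max_le
  · exact (d.norm_le i z).trans (Real.exp_le_exp.2 (d.b_mono i _ _ (norm_nonneg z) hz))
  · exact (delta_le_one k).trans (Real.one_le_exp (d.b_nonneg i hR))

theorem tlog_anti {P : ℂ → ℂ} {k k' : ℕ} (h : k ≤ k') (z : ℂ) :
    tlog P (1 / (k' + 1)) z ≤ tlog P (1 / (k + 1)) z := by
  unfold tlog
  apply Real.log_le_log (lt_max_of_lt_right (delta_pos k'))
  apply max_le_max le_rfl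
  apply one_div_le_one_div_of_le (by positivity)
  have : (k : ℝ) ≤ k' := by exact_mod_cast h
  linarith

theorem approx_anti {F F' : Finset ι} (hF : F ⊆ F') {k k' : ℕ} (hk : k ≤ k') {R : ℝ} {z : ℂ}
    (hz : ‖z‖ ≤ R) : d.approx F' k' R z ≤ d.approx F k R z := by
  unfold approx
  apply sub_le_sub_left
  calc ∑ i ∈ F, d.m i * (d.b i R - tlog (d.P i) (1 / (k + 1)) z)
      ≤ ∑ i ∈ F, d.m i * (d.b i R - tlog (d.P i) (1 / (k' + 1)) z) := by
        apply Finset.sum_le_sum
        intro i _
        apply mul_le_mul_of_nonneg_left _ (d.m_nonneg i)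
        have := tlog_anti (P := d.P i) hk z
        linarith
    _ ≤ ∑ i ∈ F', d.m i * (d.b i R - tlog (d.P i) (1 / (k' + 1)) z) := by
        apply Finset.sum_le_sum_of_subset_of_nonneg hF
        intro i _ _
        apply mul_nonneg (d.m_nonneg i)
        have := d.tlog_le (i := i) hz k'
        linarith

theorem pot_eq {z : ℂ} {R : ℝ} (hz : ‖z‖ ≤ R) :
    d.pot z = ⨅ (F : Finset ι) (k : ℕ), ((d.approx F k R z : ℝ) : EReal) := by
  classical
  have hR : 0 ≤ R := (norm_nonneg z).trans hz
  set t : ι → ℝ := fun i => d.m i * (d.b i R - d.b i ‖z‖) with ht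
  have htnn : ∀ i, 0 ≤ t i := fun i => mul_nonneg (d.m_nonneg i)
    (sub_nonneg.2 (d.b_mono i _ _ (norm_nonneg z) hz))
  have htsum : Summable t := by
    have := (d.summable R hR).sub (d.summable ‖z‖ (norm_nonneg z))
    refine this.congr fun i => ?_
    simp only [ht]; ring
  have hT : ∑' i, t i = d.B R - d.B ‖z‖ := by
    unfold B
    rw [← (d.summable R hR).tsum_sub (d.summable ‖z‖ (norm_nonneg z))]
    apply tsum_congr
    intro i
    simp only [ht]; ring
  have hrel : ∀ F k, d.approx F k R z = d.approx F k ‖z‖ z + (∑' i, t i - ∑ i ∈ F, t i) := by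
    intro F k
    unfold approx
    rw [hT]
    have : ∑ i ∈ F, d.m i * (d.b i R - tlog (d.P i) (1 / (k + 1)) z)
        = ∑ i ∈ F, d.m i * (d.b i ‖z‖ - tlog (d.P i) (1 / (k + 1)) z) + ∑ i ∈ F, t i := by
      rw [← Finset.sum_add_distrib]
      apply Finset.sum_congr rfl
      intro i _
      simp only [ht]; ring
    rw [this]; ring
  apply le_antisymm
  · refine le_iInf fun F => le_iInf fun k => ?_
    refine (iInf_le_of_le F (iInf_le_of_le k le_rfl)).trans (EReal.coe_le_coe_iff.2 ?_)
    rw [hrel F k]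
    have : ∑ i ∈ F, t i ≤ ∑' i, t i := htsum.sum_le_tsum F fun i _ => htnn i
    linarith
  · refine le_iInf fun F => le_iInf fun k => ?_
    apply le_of_forall_gt_imp_ge_of_dense
    intro a ha
    obtain ⟨a', ha'1, ha'2⟩ := EReal.lt_iff_exists_real_btwn.1 ha
    rw [EReal.coe_lt_coe_iff] at ha'1
    have htend : Tendsto (fun F : Finset ι => ∑ i ∈ F, t i) atTop (𝓝 (∑' i, t i)) :=
      htsum.hasSum
    have hev : ∀ᶠ F' : Finset ι in atTop,
        ∑' i, t i - (a' - d.approx F k ‖z‖ z) < ∑ i ∈ F', t i :=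
      htend.eventually_const_lt (by linarith)
    obtain ⟨F', hF', hFF'⟩ := (hev.and (eventually_ge_atTop F)).exists
    refine (iInf_le_of_le F' (iInf_le_of_le k le_rfl)).trans ?_
    refine le_trans (EReal.coe_le_coe_iff.2 ?_) ha'2.le
    rw [hrel F' k]
    have := d.approx_anti hFF' (le_refl k) (le_refl ‖z‖)
    linarith

theorem pot_le {z : ℂ} {R : ℝ} (hz : ‖z‖ ≤ R) (F : Finset ι) (k : ℕ) :
    d.pot z ≤ ((d.approx F k R z : ℝ) : EReal) := by
  rw [d.pot_eq hz]
  exact iInf_le_of_le F (iInf_le_of_le k le_rfl)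

theorem pot_lt_iff {z : ℂ} {R : ℝ} (hz : ‖z‖ ≤ R) {a : EReal} :
    d.pot z < a ↔ ∃ F k, ((d.approx F k R z : ℝ) : EReal) < a := by
  rw [d.pot_eq hz]
  simp only [iInf_lt_iff]

theorem continuous_approx (F : Finset ι) (k : ℕ) (R : ℝ) : Continuous (d.approx F k R) := by
  unfold approx
  apply Continuous.sub continuous_const
  apply continuous_finsetSum
  intro i _
  apply Continuous.mul continuous_const
  apply Continuous.sub continuous_const
  exact continuous_tlog (d.P_diff i).continuous (delta_pos k)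

theorem pot_lt_top (z : ℂ) : d.pot z < ⊤ :=
  (d.pot_le (le_refl ‖z‖) ∅ 0).trans_lt (EReal.coe_lt_top _)

theorem pot_usc (z : ℂ) (a : EReal) (ha : d.pot z < a) : ∀ᶠ w in 𝓝 z, d.pot w < a := by
  have hz : ‖z‖ ≤ ‖z‖ + 1 := by linarith
  obtain ⟨F, k, hFk⟩ := (d.pot_lt_iff hz).1 ha
  have hcont : Continuous fun w => ((d.approx F k (‖z‖ + 1) w : ℝ) : EReal) :=
    continuous_coe_real_ereal.comp (d.continuous_approx F k _)
  have h1 : ∀ᶠ w in 𝓝 z, ((d.approx F k (‖z‖ + 1) w : ℝ) : EReal) < a :=
    hcont.continuousAt.eventually_lt continuousAt_const hFk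
  have h2 : ∀ᶠ w in 𝓝 z, ‖w‖ < ‖z‖ + 1 :=
    continuous_norm.continuousAt.eventually_lt continuousAt_const (by linarith)
  filter_upwards [h1, h2] with w hw1 hw2
  exact (d.pot_lt_iff hw2.le).2 ⟨F, k, hw1⟩

theorem approx_le_circleAverage (F : Finset ι) (k : ℕ) (R : ℝ) (c : ℂ) {r : ℝ} (hr : 0 < r) :
    d.approx F k R c ≤ Real.circleAverage (d.approx F k R) c r := by
  have hδ := delta_pos k
  have hcont : ∀ i, Continuous (tlog (d.P i) (1 / (k + 1))) :=
    fun i => continuous_tlog (d.P_diff i).continuous hδ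
  have hform : d.approx F k R = fun z => (d.B R - ∑ i ∈ F, d.m i * d.b i R)
      + ∑ i ∈ F, d.m i • tlog (d.P i) (1 / (k + 1)) z := by
    funext z
    unfold approx
    simp only [smul_eq_mul, mul_sub, Finset.sum_sub_distrib]
    ring
  have hint : ∀ i ∈ F, CircleIntegrable (fun z => d.m i • tlog (d.P i) (1 / (k + 1)) z) c r := by
    intro i _
    apply ContinuousOn.circleIntegrable hr.le
    exact ((hcont i).const_smul (d.m i)).continuousOn
  have hint' : CircleIntegrable (fun z => ∑ i ∈ F, d.m i • tlog (d.P i) (1 / (k + 1)) z) c r := by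
    apply ContinuousOn.circleIntegrable hr.le
    exact (continuous_finsetSum F fun i _ => (hcont i).const_smul (d.m i)).continuousOn
  rw [hform]
  rw [Real.circleAverage_fun_add (circleIntegrable_const _ _ _) hint', Real.circleAverage_const,
    Real.circleAverage_fun_sum hint]
  apply add_le_add_right
  apply Finset.sum_le_sum
  intro i _
  rw [Real.circleAverage_fun_smul, smul_eq_mul, smul_eq_mul]
  apply mul_le_mul_of_nonneg_left _ (d.m_nonneg i)
  exact tlog_le_circleAverage (d.P_diff i) ⟨0, by rw [d.P_zero i]; exact one_ne_zero⟩ hδ c hr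

theorem pot_submean [Countable ι] (c : ℂ) {r : ℝ} (hr : 0 < r) :
    d.pot c ≤ circleMean d.pot c r := by
  refine le_iInf fun u => le_iInf fun hu => le_iInf fun huv => ?_
  obtain ⟨F, hFmono, hFtend⟩ := exists_seq_monotone_tendsto_atTop_atTop (Finset ι)
  set R : ℝ := ‖c‖ + r with hR
  have hsphere : ∀ z ∈ sphere c r, ‖z‖ ≤ R := by
    intro z hz
    have : ‖z - c‖ = r := by rwa [mem_sphere, dist_eq_norm] at hz
    calc ‖z‖ = ‖c + (z - c)‖ := by congr 1; ring
      _ ≤ ‖c‖ + ‖z - c‖ := norm_add_le _ _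
      _ = R := by rw [this]
  have hcR : ‖c‖ ≤ R := by linarith
  set vn : ℕ → ℂ → ℝ := fun n => d.approx (F n) n R with hvn
  have hvcont : ∀ n, Continuous (vn n) := fun n => d.continuous_approx _ _ _
  have hanti : ∀ z ∈ sphere c r, ∀ n n', n ≤ n' → vn n' z ≤ vn n z := by
    intro z hz n n' h
    exact d.approx_anti (hFmono h) h (hsphere z hz)
  have hlim : ∀ z ∈ sphere c r, Tendsto (fun n => max (vn n z) (u z)) atTop (𝓝 (u z)) := by
    intro z hz
    rw [Metric.tendsto_atTop]
    intro δ hδ
    have h1 : d.pot z < ((u z + δ : ℝ) : EReal) :=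
      (huv z hz).trans_lt (EReal.coe_lt_coe_iff.2 (by linarith))
    obtain ⟨F', k, hFk⟩ := (d.pot_lt_iff (hsphere z hz)).1 h1
    rw [EReal.coe_lt_coe_iff] at hFk
    obtain ⟨n₀, hn₀⟩ := (hFtend.eventually_ge_atTop F').exists
    refine ⟨max n₀ k, fun n hn => ?_⟩
    have h2 : vn n z ≤ d.approx F' k R z :=
      d.approx_anti (hn₀.trans (hFmono ((le_max_left _ _).trans hn)))
        ((le_max_right _ _).trans hn) (hsphere z hz)
    rw [Real.dist_eq, abs_lt]
    constructor
    · have := le_max_right (vn n z) (u z)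
      linarith
    · have : max (vn n z) (u z) < u z + δ := max_lt (by linarith) (by linarith)
      linarith
  have htend : Tendsto (fun n => Real.circleAverage (fun z => max (vn n z) (u z)) c r) atTop
      (𝓝 (Real.circleAverage u c r)) := by
    unfold Real.circleAverage
    apply Tendsto.const_smul
    have hmem : ∀ θ : ℝ, circleMap c r θ ∈ sphere c r := fun θ => circleMap_mem_sphere c hr.le θ
    have hucirc : Continuous fun θ : ℝ => u (circleMap c r θ) := by
      rw [← continuousOn_univ]
      exact hu.comp (continuous_circleMap c r).continuousOn fun θ _ => hmem θ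
    apply intervalIntegral.tendsto_integral_filter_of_dominated_convergence
      (fun θ => |vn 0 (circleMap c r θ)| + |u (circleMap c r θ)|)
    · filter_upwards with n
      apply Continuous.aestronglyMeasurable
      exact ((hvcont n).comp (continuous_circleMap c r)).max hucirc
    · filter_upwards with n
      filter_upwards with θ _
      have h1 := hanti _ (hmem θ) 0 n (Nat.zero_le n)
      rw [Real.norm_eq_abs, abs_le]
      constructor
      · have h2 := le_max_right (vn n (circleMap c r θ)) (u (circleMap c r θ))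
        have h3 := neg_abs_le (u (circleMap c r θ))
        have h4 := abs_nonneg (vn 0 (circleMap c r θ))
        linarith
      · apply max_le
        · have h3 := le_abs_self (vn 0 (circleMap c r θ))
          have h4 := abs_nonneg (u (circleMap c r θ))
          linarith
        · have h3 := le_abs_self (u (circleMap c r θ))
          have h4 := abs_nonneg (vn 0 (circleMap c r θ))
          linarith
    · apply Continuous.intervalIntegrable
      exact ((hvcont 0).comp (continuous_circleMap c r)).abs.add hucirc.abs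
    · filter_upwards with θ _
      exact hlim _ (hmem θ)
  have hle : ∀ n, d.pot c ≤ ((Real.circleAverage (fun z => max (vn n z) (u z)) c r : ℝ) : EReal) := by
    intro n
    refine (d.pot_le hcR (F n) n).trans (EReal.coe_le_coe_iff.2 ?_)
    refine (d.approx_le_circleAverage (F n) n R c hr).trans ?_
    apply Real.circleAverage_mono ((hvcont n).continuousOn.circleIntegrable hr.le)
    · apply ContinuousOn.circleIntegrable hr.le
      exact ContinuousOn.sup (hvcont n).continuousOn hu
    · intro z _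
      exact le_max_left _ _
  exact ge_of_tendsto' ((continuous_coe_real_ereal.tendsto _).comp htend) hle

theorem pot_isSubharmonicOn [Countable ι] : IsSubharmonicOn d.pot univ where
  lt_top := fun z _ => d.pot_lt_top z
  usc := fun z _ a ha => (d.pot_usc z a ha).filter_mono nhdsWithin_le_nhds
  submean := fun c _ => ⟨1, one_pos, subset_univ _, fun _ hr _ => d.pot_submean c hr⟩

end PotData

end Pool.Agent.H28.MinSub
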