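import Pool.Agent.H28.MinSub.Potential

open Metric Set Filter Topology InnerProductSpace Laplacian
open scoped ENNReal

namespace Pool.Agent.H28.MinSub

namespace PotData

variable {ι : Type} (d : PotData ι)

theorem B_zero : d.B 0 = 0 := by
  unfold B
  simp [d.b_zero]

theorem pot_zero : d.pot 0 = 0 := by
  unfold pot
  have h : ∀ (F : Finset ι) (k : ℕ), d.approx F k ‖(0 : ℂ)‖ 0 = 0 := by
    intro F k
    unfold approx
    rw [norm_zero, B_zero]
    have : ∀ i, tlog (d.P i) (1 / (k + 1)) 0 = 0 := by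
      intro i
      unfold tlog
      rw [d.P_zero, norm_one, max_eq_left (delta_le_one k), Real.log_one]
    simp only [d.b_zero, this, sub_zero, mul_zero, Finset.sum_const_zero]
  simp only [h]
  simp

theorem pot_le_B (z : ℂ) : d.pot z ≤ ((d.B ‖z‖ : ℝ) : EReal) := by
  have := d.pot_le (le_refl ‖z‖) ∅ 0
  simpa [approx] using this

theorem pot_eq_bot {z : ℂ} {i : ι} (hP : d.P i z = 0) : d.pot z = ⊥ := by
  have hm := d.m_pos i
  rw [eq_bot_iff]
  apply le_of_forall_gt_imp_ge_of_dense
  intro a ha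
  obtain ⟨a', ha'1, ha'2⟩ := EReal.lt_iff_exists_real_btwn.1 ha
  have htend : Tendsto (fun k : ℕ => d.approx {i} k ‖z‖ z) atTop atBot := by
    have h1 : ∀ k : ℕ, d.approx {i} k ‖z‖ z
        = (d.B ‖z‖ - d.m i * d.b i ‖z‖) + d.m i * Real.log (1 / ((k : ℝ) + 1)) := by
      intro k
      unfold approx tlog
      rw [Finset.sum_singleton, hP, norm_zero, max_eq_right (delta_pos k).le]
      ring
    simp only [h1]
    apply tendsto_atBot_add_const_left
    apply Tendsto.const_mul_atBot hm
    have h2 : Tendsto (fun k : ℕ => (1 : ℝ) / ((k : ℝ) + 1)) atTop (𝓝[>] 0) := by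
      rw [tendsto_nhdsWithin_iff]
      exact ⟨tendsto_one_div_add_atTop_nhds_zero_nat, Eventually.of_forall fun k => delta_pos k⟩
    exact Real.tendsto_log_nhdsGT_zero.comp h2
  obtain ⟨k, hk⟩ := (htend.eventually (eventually_le_atBot a')).exists
  exact (d.pot_le (le_refl ‖z‖) {i} k).trans ((EReal.coe_le_coe_iff.2 hk).trans ha'2.le)

/-- For small `k`-truncation the finite approximation is exact. -/
theorem exists_approx_eq (F : Finset ι) (R : ℝ) {z : ℂ} (hz : ∀ i ∈ F, d.P i z ≠ 0) :
    ∃ k : ℕ, d.approx F k R z = d.B R - ∑ i ∈ F, d.m i * (d.b i R - Real.log ‖d.P i z‖) := by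
  have h : ∀ᶠ k : ℕ in atTop, ∀ i ∈ F, 1 / ((k : ℝ) + 1) ≤ ‖d.P i z‖ := by
    rw [Filter.eventually_all_finset]
    intro i hi
    have : 0 < ‖d.P i z‖ := norm_pos_iff.2 (hz i hi)
    exact (tendsto_one_div_add_atTop_nhds_zero_nat.eventually_le_const this)
  obtain ⟨k, hk⟩ := h.exists
  refine ⟨k, ?_⟩
  unfold approx tlog
  congr 1
  apply Finset.sum_congr rfl
  intro i hi
  rw [max_eq_left (hk i hi)]

/-- The potential as an honest sum. -/
theorem pot_eq_tsum {z : ℂ} (hz : ∀ i, d.P i z ≠ 0)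
    (hs : Summable fun i => d.m i * Real.log ‖d.P i z‖) :
    d.pot z = ((∑' i, d.m i * Real.log ‖d.P i z‖ : ℝ) : EReal) := by
  set R := ‖z‖ with hR
  have hR0 : 0 ≤ R := norm_nonneg z
  set t : ι → ℝ := fun i => d.m i * (d.b i R - Real.log ‖d.P i z‖) with ht
  have hlog : ∀ i, Real.log ‖d.P i z‖ ≤ d.b i R := by
    intro i
    rw [Real.log_le_iff_le_exp (norm_pos_iff.2 (hz i))]
    exact d.norm_le i z
  have htnn : ∀ i, 0 ≤ t i := fun i => mul_nonneg (d.m_nonneg i) (sub_nonneg.2 (hlog i))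
  have htsum : Summable t := by
    refine ((d.summable R hR0).sub hs).congr fun i => ?_
    simp only [ht]; ring
  have hT : ∑' i, t i = d.B R - ∑' i, d.m i * Real.log ‖d.P i z‖ := by
    unfold B
    rw [← (d.summable R hR0).tsum_sub hs]
    apply tsum_congr
    intro i
    simp only [ht]; ring
  apply le_antisymm
  · apply le_of_forall_gt_imp_ge_of_dense
    intro a ha
    obtain ⟨a', ha'1, ha'2⟩ := EReal.lt_iff_exists_real_btwn.1 ha
    rw [EReal.coe_lt_coe_iff] at ha'1
    have htend : Tendsto (fun F : Finset ι => ∑ i ∈ F, t i) atTop (𝓝 (∑' i, t i)) :=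
      htsum.hasSum
    obtain ⟨F, hF⟩ := (htend.eventually_const_lt
      (by linarith : ∑' i, t i - (a' - ∑' i, d.m i * Real.log ‖d.P i z‖) < ∑' i, t i)).exists
    obtain ⟨k, hk⟩ := d.exists_approx_eq F R (fun i _ => hz i)
    refine (d.pot_le (le_refl _) F k).trans (le_trans (EReal.coe_le_coe_iff.2 ?_) ha'2.le)
    rw [hk]
    have : ∑ i ∈ F, d.m i * (d.b i R - Real.log ‖d.P i z‖) = ∑ i ∈ F, t i := rfl
    rw [this]
    linarith
  · unfold pot
    refine le_iInf fun F => le_iInf fun k => EReal.coe_le_coe_iff.2 ?_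
    have h1 : d.B R - ∑ i ∈ F, t i ≤ d.approx F k R z := by
      unfold approx
      apply sub_le_sub_left
      apply Finset.sum_le_sum
      intro i _
      apply mul_le_mul_of_nonneg_left _ (d.m_nonneg i)
      have : Real.log ‖d.P i z‖ ≤ tlog (d.P i) (1 / (k + 1)) z :=
        Real.log_le_log (norm_pos_iff.2 (hz i)) (le_max_left _ _)
      linarith
    have h2 : ∑ i ∈ F, t i ≤ ∑' i, t i := htsum.sum_le_tsum F fun i _ => htnn i
    linarith

/-- **Minimality of purely atomic potentials.** A subharmonic function `w` with `w 0 = 0` which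
is dominated by the potential on the closed unit disc cannot be smaller by a fixed amount on the
unit circle. -/
theorem no_minorant {w : ℂ → EReal} (hw : IsSubharmonicOn w univ) (hw0 : w 0 = 0)
    (hle : ∀ z, ‖z‖ ≤ 1 → w z ≤ d.pot z) {ε : ℝ} (hε : 0 < ε)
    (hcirc : ∀ z, ‖z‖ = 1 → w z ≤ d.pot z - ((ε : ℝ) : EReal)) : False := by
  classical
  -- choose a finite set capturing almost all of the bound at radius one
  have hsum1 := d.summable 1 zero_le_one
  have hterm : ∀ i, 0 ≤ d.m i * d.b i 1 :=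
    fun i => mul_nonneg (d.m_nonneg i) (d.b_nonneg i zero_le_one)
  have htend : Tendsto (fun F : Finset ι => ∑ i ∈ F, d.m i * d.b i 1) atTop (𝓝 (d.B 1)) :=
    hsum1.hasSum
  obtain ⟨F, hF⟩ := (htend.eventually_const_lt (by linarith : d.B 1 - ε / 2 < d.B 1)).exists
  set τ : ℝ := d.B 1 - ∑ i ∈ F, d.m i * d.b i 1 with hτ
  have hτ2 : τ < ε / 2 := by linarith
  set CF : ℝ := ∑ i ∈ F, d.m i * d.b i 1 with hCF
  have hCF0 : 0 ≤ CF := Finset.sum_nonneg fun i _ => hterm i
  -- pointwise bound
  have hpot : ∀ z, ‖z‖ ≤ 1 → (∀ i ∈ F, d.P i z ≠ 0) →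
      d.pot z ≤ ((τ + ∑ i ∈ F, d.m i * Real.log ‖d.P i z‖ : ℝ) : EReal) := by
    intro z hz hzF
    obtain ⟨k, hk⟩ := d.exists_approx_eq F 1 hzF
    refine (d.pot_le hz F k).trans (le_of_eq ?_)
    rw [hk]
    congr 1
    simp only [mul_sub, Finset.sum_sub_distrib]
    rw [hτ, hCF]
    ring
  obtain ⟨η, hη0, hη1, hηC⟩ : ∃ η : ℝ, 0 < η ∧ η < 1 ∧ η * CF ≤ ε / 4 := by
    refine ⟨min (1 / 2) (ε / 4 / (CF + 1)), ?_, ?_, ?_⟩
    · apply lt_min (by norm_num) (by positivity)
    · exact (min_le_left _ _).trans_lt (by norm_num)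
    · calc min (1 / 2) (ε / 4 / (CF + 1)) * CF ≤ (ε / 4 / (CF + 1)) * CF :=
            mul_le_mul_of_nonneg_right (min_le_right _ _) hCF0
        _ ≤ (ε / 4 / (CF + 1)) * (CF + 1) := by
            apply mul_le_mul_of_nonneg_left (by linarith) (by positivity)
        _ = ε / 4 := by field_simp
  -- the truncation level around the zeros
  obtain ⟨s, hs0, hs1, hsF⟩ : ∃ s : ℝ, 0 < s ∧ s < 1 ∧
      ∀ i ∈ F, η * (d.m i * Real.log s) ≤ -(ε + η * CF) := by
    have h1 : ∀ᶠ s : ℝ in 𝓝[>] 0, ∀ i ∈ F, η * (d.m i * Real.log s) ≤ -(ε + η * CF) := by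
      rw [Filter.eventually_all_finset]
      intro i _
      have h2 : Tendsto (fun s : ℝ => η * (d.m i * Real.log s)) (𝓝[>] 0) atBot :=
        (Real.tendsto_log_nhdsGT_zero.const_mul_atBot (d.m_pos i)).const_mul_atBot hη0
      exact h2.eventually (eventually_le_atBot _)
    have h3 : ∀ᶠ s : ℝ in 𝓝[>] 0, s ∈ Ioo (0 : ℝ) 1 := Ioo_mem_nhdsGT zero_lt_one
    obtain ⟨s, hs, hs'⟩ := (h1.and h3).exists
    exact ⟨s, hs'.1, hs'.2, hs⟩
  set S : ℂ → ℝ := fun z => ∑ i ∈ F, d.m i * Real.log ‖d.P i z‖ with hS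
  set H : ℂ → ℝ := fun z => (1 - η) * S z with hH
  set Ω : Set ℂ := {z | ‖z‖ < 1} ∩ ⋂ i ∈ F, {z | s < ‖d.P i z‖} with hΩ
  have hPcont : ∀ i, Continuous fun z => ‖d.P i z‖ := fun i => (d.P_diff i).continuous.norm
  have hΩopen : IsOpen Ω := by
    apply IsOpen.inter (isOpen_lt continuous_norm continuous_const)
    apply isOpen_biInter_finset
    intro i _
    exact isOpen_lt continuous_const (hPcont i)
  have hΩbdd : Bornology.IsBounded Ω := by
    apply (isBounded_ball (x := (0 : ℂ)) (r := 1)).subset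
    intro z hz
    rw [mem_ball_zero_iff]
    exact hz.1
  have hmemΩ : ∀ z ∈ Ω, ‖z‖ < 1 ∧ ∀ i ∈ F, s < ‖d.P i z‖ := by
    intro z hz
    refine ⟨hz.1, fun i hi => ?_⟩
    have := hz.2
    simp only [mem_iInter] at this
    exact this i hi
  have hclΩ : ∀ z ∈ closure Ω, ‖z‖ ≤ 1 ∧ ∀ i ∈ F, s ≤ ‖d.P i z‖ := by
    intro z hz
    constructor
    · have : closure Ω ⊆ {z | ‖z‖ ≤ 1} :=
        closure_minimal (fun z hz => (hmemΩ z hz).1.le) (isClosed_le continuous_norm continuous_const)
      exact this hz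
    · intro i hi
      have : closure Ω ⊆ {z | s ≤ ‖d.P i z‖} :=
        closure_minimal (fun z hz => ((hmemΩ z hz).2 i hi).le)
          (isClosed_le continuous_const (hPcont i))
      exact this hz
  have hharm : ∀ z, (∀ i ∈ F, d.P i z ≠ 0) → HarmonicAt H z := by
    intro z hz
    have h1 : ∀ G : Finset ι, G ⊆ F →
        HarmonicAt (fun z => ∑ i ∈ G, d.m i * Real.log ‖d.P i z‖) z := by
      intro G
      induction G using Finset.induction_on with
      | empty => intro _; simp
      | insert a G ha ih =>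
        intro hG
        have h2 := ih fun x hx => hG (Finset.mem_insert_of_mem hx)
        have h3 : HarmonicAt (fun z => Real.log ‖d.P a z‖) z :=
          ((d.P_diff a).analyticAt z).harmonicAt_log_norm (hz a (hG (Finset.mem_insert_self _ _)))
        have h4 : HarmonicAt (fun z => d.m a * Real.log ‖d.P a z‖) z := h3.const_smul
        have h5 := h4.add h2
        refine (harmonicAt_congr_nhds ?_).1 h5
        filter_upwards with y
        simp [Finset.sum_insert ha]
    exact (h1 F (Finset.Subset.refl F)).const_smul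
  have hHcont : ∀ z, (∀ i ∈ F, d.P i z ≠ 0) → ContinuousAt H z := by
    intro z hz
    exact (hharm z hz).1.continuousAt
  have hne : ∀ z, (∀ i ∈ F, s ≤ ‖d.P i z‖) → ∀ i ∈ F, d.P i z ≠ 0 := by
    intro z hz i hi h0
    have := hz i hi
    rw [h0, norm_zero] at this
    linarith
  set g : ℂ → EReal := fun z => w z + ((-H z : ℝ) : EReal) with hg
  have hgusc : ∀ z, (∀ i ∈ F, d.P i z ≠ 0) → ∀ a : EReal, g z < a → ∀ᶠ y in 𝓝 z, g y < a := by
    intro z hz a ha
    obtain ⟨a', ha'1, ha'2⟩ := EReal.lt_iff_exists_real_btwn.1 ha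
    have h1 : w z < ((a' + H z : ℝ) : EReal) := by
      have h2 : w z = g z + ((H z : ℝ) : EReal) := by
        simp only [hg]
        rw [add_assoc, ← EReal.coe_add, neg_add_cancel, EReal.coe_zero, add_zero]
      rw [h2, EReal.coe_add]
      exact EReal.add_lt_add_right_coe ha'1 _
    obtain ⟨b, hb1, hb2⟩ := EReal.lt_iff_exists_real_btwn.1 h1
    rw [EReal.coe_lt_coe_iff] at hb2
    have h3 : ∀ᶠ y in 𝓝 z, w y < (b : EReal) := by
      have := hw.usc z (mem_univ z) _ hb1
      rwa [nhdsWithin_univ] at this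
    have h4 : ∀ᶠ y in 𝓝 z, b - a' < H y :=
      (hHcont z hz).eventually_const_lt (by linarith)
    filter_upwards [h3, h4] with y hy1 hy2
    refine lt_trans ?_ ha'2
    calc g y ≤ (b : EReal) + ((-H y : ℝ) : EReal) := by
          simp only [hg]
          exact add_le_add_left hy1.le _
      _ = ((b - H y : ℝ) : EReal) := by rw [← EReal.coe_add]; congr 1
      _ < (a' : EReal) := EReal.coe_lt_coe_iff.2 (by linarith)
  have hgle : ∀ (z : ℂ) (a : ℝ), w z ≤ ((a + H z : ℝ) : EReal) → g z ≤ (a : EReal) := by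
    intro z a h
    simp only [hg]
    calc w z + ((-H z : ℝ) : EReal) ≤ ((a + H z : ℝ) : EReal) + ((-H z : ℝ) : EReal) :=
          add_le_add_left h _
      _ = (a : EReal) := by rw [← EReal.coe_add]; congr 1; ring
  have hwle : ∀ (z : ℂ) (a : ℝ), g z ≤ (a : EReal) → w z ≤ ((a + H z : ℝ) : EReal) := by
    intro z a h
    have h2 : w z = g z + ((H z : ℝ) : EReal) := by
      simp only [hg]
      rw [add_assoc, ← EReal.coe_add, neg_add_cancel, EReal.coe_zero, add_zero]
    rw [h2, EReal.coe_add]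
    exact add_le_add_left h _
  have hSle : ∀ z, ‖z‖ ≤ 1 → (∀ i ∈ F, d.P i z ≠ 0) → S z ≤ CF := by
    intro z hz hzF
    apply Finset.sum_le_sum
    intro i hi
    apply mul_le_mul_of_nonneg_left _ (d.m_nonneg i)
    rw [Real.log_le_iff_le_exp (norm_pos_iff.2 (hzF i hi))]
    exact (d.norm_le i z).trans (Real.exp_le_exp.2 (d.b_mono i _ _ (norm_nonneg z) hz))
  have hmain := max_principle hΩopen hΩbdd (g := g) (c := -(ε / 4)) ?_ ?_ ?_ ?_ 0 ?_
  · have h1 : g 0 = 0 := by
      simp only [hg, hH, hS, hw0, zero_add, d.P_zero, norm_one, Real.log_one, mul_zero,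
        Finset.sum_const_zero, neg_zero, EReal.coe_zero]
    rw [h1] at hmain
    have h2 : (0 : EReal) = ((0 : ℝ) : EReal) := rfl
    rw [h2, EReal.coe_le_coe_iff] at hmain
    linarith
  · intro z _
    exact EReal.add_lt_top (hw.lt_top z (mem_univ z)).ne (EReal.coe_ne_top _)
  · intro z hz
    exact hgusc z (hne z fun i hi => ((hmemΩ z hz).2 i hi).le)
  · intro z hz
    obtain ⟨R₁, hR₁, hR₁Ω⟩ := Metric.isOpen_iff.1 hΩopen z hz
    obtain ⟨R₂, hR₂, -, hR₂w⟩ := hw.submean z (mem_univ z)
    have hsub : closedBall z (min (R₁ / 2) R₂) ⊆ Ω :=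
      (closedBall_subset_ball ((min_le_left _ _).trans_lt (by linarith))).trans hR₁Ω
    refine ⟨min (R₁ / 2) R₂, lt_min (by linarith) hR₂, hsub, ?_⟩
    intro r hr hrle
    have hsubr : closedBall z r ⊆ Ω := (closedBall_subset_closedBall hrle).trans hsub
    have hHr : HarmonicOnNhd H (closedBall z |r|) := by
      rw [abs_of_pos hr]
      intro y hy
      exact hharm y (hne y fun i hi => ((hmemΩ y (hsubr hy)).2 i hi).le)
    have hHcontS : ContinuousOn H (sphere z r) := by
      intro y hy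
      exact (hHcont y (hne y fun i hi =>
        ((hmemΩ y (hsubr (sphere_subset_closedBall hy))).2 i hi).le)).continuousWithinAt
    refine le_iInf fun u => le_iInf fun hu => le_iInf fun huv => ?_
    apply hgle
    have h1 := (hR₂w r hr (hrle.trans (min_le_right _ _))).trans
      (circleMean_le (u := fun y => u y + H y) (hu.add hHcontS) fun y hy => hwle y _ (huv y hy))
    rw [Real.circleAverage_fun_add (hu.circleIntegrable hr.le) (hHcontS.circleIntegrable hr.le),
      hHr.circleAverage_eq] at h1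
    exact h1
  · intro q hq c' hc'
    have hqcl := hclΩ q hq.1
    have hqne := hne q hqcl.2
    have hqΩ : q ∉ Ω := by
      have := hq.2
      rwa [hΩopen.interior_eq] at this
    have hkey : g q ≤ ((-(ε / 4) : ℝ) : EReal) := by
      apply hgle
      by_cases hq1 : ‖q‖ = 1
      · have h1 := hcirc q hq1
        refine h1.trans ?_
        calc d.pot q - ((ε : ℝ) : EReal) ≤ ((τ + S q : ℝ) : EReal) - ((ε : ℝ) : EReal) :=
              EReal.sub_le_sub (hpot q hqcl.1 hqne) le_rfl
          _ = ((τ + S q - ε : ℝ) : EReal) := by rw [← EReal.coe_sub]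
          _ ≤ _ := by
              apply EReal.coe_le_coe_iff.2
              have h2 := hSle q hqcl.1 hqne
              have h3 : η * S q ≤ η * CF := mul_le_mul_of_nonneg_left h2 hη0.le
              simp only [hH]
              linarith
      · have hq1' : ‖q‖ < 1 := lt_of_le_of_ne hqcl.1 hq1
        obtain ⟨i₀, hi₀, hi₀s⟩ : ∃ i₀ ∈ F, ‖d.P i₀ q‖ ≤ s := by
          by_contra hcon
          push Not at hcon
          apply hqΩ
          refine ⟨hq1', ?_⟩
          simp only [mem_iInter]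
          exact fun i hi => hcon i hi
        refine ((hle q hqcl.1).trans (hpot q hqcl.1 hqne)).trans (EReal.coe_le_coe_iff.2 ?_)
        have h1 : S q ≤ d.m i₀ * Real.log s + CF := by
          simp only [hS, hCF]
          rw [← Finset.add_sum_erase _ _ hi₀, ← Finset.add_sum_erase F _ hi₀]
          have h2 : d.m i₀ * Real.log ‖d.P i₀ q‖ ≤ d.m i₀ * Real.log s := by
            apply mul_le_mul_of_nonneg_left _ (d.m_nonneg i₀)
            exact Real.log_le_log (norm_pos_iff.2 (hqne i₀ hi₀)) hi₀s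
          have h3 : ∑ i ∈ F.erase i₀, d.m i * Real.log ‖d.P i q‖
              ≤ ∑ i ∈ F.erase i₀, d.m i * d.b i 1 := by
            apply Finset.sum_le_sum
            intro i hi
            apply mul_le_mul_of_nonneg_left _ (d.m_nonneg i)
            rw [Real.log_le_iff_le_exp (norm_pos_iff.2 (hqne i (Finset.mem_of_mem_erase hi)))]
            exact (d.norm_le i q).trans
              (Real.exp_le_exp.2 (d.b_mono i _ _ (norm_nonneg q) hqcl.1))
          have h4 := hterm i₀
          linarith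
        have h5 : η * S q ≤ η * (d.m i₀ * Real.log s + CF) :=
          mul_le_mul_of_nonneg_left h1 hη0.le
        have h6 := hsF i₀ hi₀
        have h7 : 0 ≤ η * CF := mul_nonneg hη0.le hCF0
        change τ + S q ≤ -(ε / 4) + H q
        simp only [hH]
        nlinarith
    have h1 := hgusc q hqne (c' : EReal) (hkey.trans_lt (EReal.coe_lt_coe_iff.2 hc'))
    filter_upwards [h1.filter_mono nhdsWithin_le_nhds] with y hy using hy.le
  · refine ⟨by simp, ?_⟩
    simp only [mem_iInter]
    intro i _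
    simp only [mem_ofPred_eq, d.P_zero, norm_one]
    exact hs1

end PotData

end Pool.Agent.H28.MinSub
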