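import Pool.Agent.H28.MinSub.MaxPrinciple

open Metric Set Filter Topology InnerProductSpace Laplacian
open scoped ENNReal

namespace Pool.Agent.H28.MinSub

/-- The weight `e^(λ x)`. -/
noncomputable def wt (lam : ℝ) (z : ℂ) : ℝ := Real.exp (lam * z.re)

theorem wt_pos (lam : ℝ) (z : ℂ) : 0 < wt lam z := Real.exp_pos _

theorem hasFDerivAt_wt (lam : ℝ) (z : ℂ) :
    HasFDerivAt (wt lam) ((lam * wt lam z) • Complex.reCLM) z := by
  have h1 : HasFDerivAt (fun z : ℂ => lam * z.re) (lam • Complex.reCLM) z :=
    Complex.reCLM.hasFDerivAt.const_mul lam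
  have h2 := h1.exp
  refine h2.congr_fderiv ?_
  rw [smul_smul, mul_comm]
  rfl

theorem fderiv_wt (lam : ℝ) : fderiv ℝ (wt lam) = fun z => (lam * wt lam z) • Complex.reCLM := by
  funext z
  exact (hasFDerivAt_wt lam z).fderiv

theorem contDiff_wt (lam : ℝ) : ContDiff ℝ 2 (wt lam) := by
  unfold wt
  apply ContDiff.exp
  apply ContDiff.mul contDiff_const
  exact Complex.reCLM.contDiff

/-- The conjugation identity `Δ (e^(λx) r) = e^(λx) L_λ r`. -/
theorem laplacian_wt_mul (lam : ℝ) {r : ℂ → ℝ} {z : ℂ} (hr : ContDiffAt ℝ 2 r z) :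
    (Δ (fun y => wt lam y * r y)) z = wt lam z * opL lam r z := by
  have hr1 : ∀ᶠ y in 𝓝 z, DifferentiableAt ℝ r y := by
    filter_upwards [hr.eventually (by simp)] with y hy
    exact hy.differentiableAt (by norm_num)
  have hfr : DifferentiableAt ℝ (fderiv ℝ r) z :=
    (hr.fderiv_right (m := 1) (by norm_num)).differentiableAt (by norm_num)
  have hfw : HasFDerivAt (fderiv ℝ (wt lam))
      ((lam • ((lam * wt lam z) • Complex.reCLM)).smulRight Complex.reCLM) z := by
    rw [fderiv_wt]
    exact ((hasFDerivAt_wt lam z).const_mul lam).smul_const Complex.reCLM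
  have h1 : fderiv ℝ (fun y => wt lam y * r y)
      =ᶠ[𝓝 z] fun y => wt lam y • fderiv ℝ r y + r y • fderiv ℝ (wt lam) y := by
    filter_upwards [hr1] with y hy
    exact fderiv_fun_mul (hasFDerivAt_wt lam y).differentiableAt hy
  have hrz : DifferentiableAt ℝ r z := hr1.self_of_nhds
  have h2 : HasFDerivAt (fun y => wt lam y • fderiv ℝ r y + r y • fderiv ℝ (wt lam) y)
      ((wt lam z • fderiv ℝ (fderiv ℝ r) z + (fderiv ℝ (wt lam) z).smulRight (fderiv ℝ r z))
        + (r z • ((lam • ((lam * wt lam z) • Complex.reCLM)).smulRight Complex.reCLM)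
          + (fderiv ℝ r z).smulRight (fderiv ℝ (wt lam) z))) z := by
    apply HasFDerivAt.add
    · exact (hasFDerivAt_wt lam z).differentiableAt.hasFDerivAt.fun_smul hfr.hasFDerivAt
    · exact hrz.hasFDerivAt.fun_smul hfw
  have h3 : fderiv ℝ (fderiv ℝ (fun y => wt lam y * r y)) z = _ :=
    (Filter.EventuallyEq.fderiv_eq h1).trans h2.fderiv
  have h4 : fderiv ℝ (wt lam) z = (lam * wt lam z) • Complex.reCLM :=
    (hasFDerivAt_wt lam z).fderiv
  simp only [opL, laplacian_eq_iteratedFDeriv_complexPlane, iteratedFDeriv_two_apply,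
    Matrix.cons_val_zero, Matrix.cons_val_one]
  rw [h3, h4]
  simp only [_root_.add_apply, _root_.smul_apply,
    ContinuousLinearMap.smulRight_apply, smul_eq_mul, Complex.reCLM_apply, Complex.one_re,
    Complex.I_re]
  ring

theorem harmonicAt_wt_mul {lam : ℝ} {r : ℂ → ℝ} {D : Set ℂ} (hD : IsOpen D)
    (hr : ContDiffOn ℝ 2 r D) (heq : ∀ z ∈ D, opL lam r z = 0) {z : ℂ} (hz : z ∈ D) :
    HarmonicAt (fun y => wt lam y * r y) z := by
  have hrat : ∀ y ∈ D, ContDiffAt ℝ 2 r y := fun y hy => hr.contDiffAt (hD.mem_nhds hy)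
  refine ⟨(contDiff_wt lam).contDiffAt.mul (hrat z hz), ?_⟩
  filter_upwards [hD.mem_nhds hz] with y hy
  rw [laplacian_wt_mul lam (hrat y hy), heq y hy, mul_zero]
  rfl

/-- Harmonic functions are subharmonic in the sense of `IsSubharmonicOn`. -/
theorem mean_of_harmonic {h : ℂ → ℝ} {G : Set ℂ} (hG : IsOpen G)
    (hh : ∀ z ∈ G, HarmonicAt h z) :
    ∀ c ∈ G, ∃ R > 0, closedBall c R ⊆ G ∧
      ∀ r, 0 < r → r ≤ R → ((h c : ℝ) : EReal) ≤ circleMean (fun z => (h z : EReal)) c r := by
  intro c hc
  obtain ⟨R, hR, hRG⟩ := Metric.isOpen_iff.1 hG c hc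
  have hsub : closedBall c (R / 2) ⊆ G := (closedBall_subset_ball (by linarith)).trans hRG
  refine ⟨R / 2, by linarith, hsub, fun r hr hrR => ?_⟩
  have hr' : HarmonicOnNhd h (closedBall c |r|) := by
    rw [abs_of_pos hr]
    intro y hy
    exact hh y (hsub (closedBall_subset_closedBall hrR hy))
  rw [← hr'.circleAverage_eq]
  apply le_circleMean_of_continuousOn hr.le _ fun z _ => le_rfl
  intro y hy
  have : y ∈ closedBall c |r| := by
    rw [abs_of_pos hr]; exact sphere_subset_closedBall hy
  exact (hr' y this).1.continuousAt.continuousWithinAt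

theorem isSubharmonicOn_of_harmonic {h : ℂ → ℝ} {G : Set ℂ} (hG : IsOpen G)
    (hh : ∀ z ∈ G, HarmonicAt h z) : IsSubharmonicOn (fun z => (h z : EReal)) G where
  lt_top := fun z _ => EReal.coe_lt_top _
  usc := fun z hz a ha => by
    have h1 : ContinuousAt (fun z => ((h z : ℝ) : EReal)) z :=
      continuous_coe_real_ereal.continuousAt.comp (hh z hz).1.continuousAt
    exact (h1.eventually_lt continuousAt_const ha).filter_mono nhdsWithin_le_nhds
  submean := mean_of_harmonic hG hh

/-- Maximum principle for harmonic functions, in the form needed below. -/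
theorem harmonic_max {h : ℂ → ℝ} {Ω : Set ℂ} (hΩ : IsOpen Ω) (hb : Bornology.IsBounded Ω)
    (hh : ∀ z ∈ Ω, HarmonicAt h z)
    (hbd : ∀ q ∈ frontier Ω, ∀ c' : ℝ, 0 < c' → ∀ᶠ z in 𝓝[Ω] q, h z ≤ c') :
    ∀ z ∈ Ω, h z ≤ 0 := by
  intro z hz
  have h1 := max_principle hΩ hb (g := fun z => (h z : EReal)) (c := 0)
    (fun z _ => EReal.coe_lt_top _) ?_ (mean_of_harmonic hΩ hh) ?_ z hz
  · exact EReal.coe_le_coe_iff.1 h1
  · intro z hz a ha
    have h1 : ContinuousAt (fun z => ((h z : ℝ) : EReal)) z :=
      continuous_coe_real_ereal.continuousAt.comp (hh z hz).1.continuousAt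
    exact h1.eventually_lt continuousAt_const ha
  · intro q hq c' hc'
    filter_upwards [hbd q hq c' hc'] with y hy using EReal.coe_le_coe_iff.2 hy

/-- The union of strips `cos (N y) > 0`. -/
def strips (N : ℕ) : Set ℂ := {z | 0 < Real.cos (N * z.im)}

theorem isOpen_strips (N : ℕ) : IsOpen (strips N) :=
  isOpen_lt continuous_const (Real.continuous_cos.comp (continuous_const.mul Complex.continuous_im))

theorem exp_preimage (N : ℕ) :
    Complex.exp ⁻¹' {z | 0 < (z ^ N).re} = strips N := by
  ext z
  simp only [mem_preimage, mem_ofPred_eq, strips]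
  rw [← Complex.exp_nat_mul, Complex.exp_re]
  have h1 : ((N : ℂ) * z).im = N * z.im := by
    rw [← Complex.ofReal_natCast, Complex.im_ofReal_mul]
  rw [h1]
  constructor
  · intro h
    exact (mul_pos_iff_of_pos_left (Real.exp_pos _)).1 h
  · intro h
    exact mul_pos (Real.exp_pos _) h

theorem cos_eq_zero_of_mem_frontier {N : ℕ} {q : ℂ} (hq : q ∈ frontier (strips N)) :
    Real.cos (N * q.im) = 0 := by
  have h1 : 0 ≤ Real.cos (N * q.im) := by
    have : closure (strips N) ⊆ {z | 0 ≤ Real.cos (N * z.im)} :=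
      closure_minimal (fun z (hz : 0 < Real.cos (N * z.im)) => show 0 ≤ Real.cos (N * z.im) from hz.le)
        (isClosed_le continuous_const
          (Real.continuous_cos.comp (continuous_const.mul Complex.continuous_im)))
    exact this hq.1
  have h2 : ¬ 0 < Real.cos (N * q.im) := by
    intro h
    have := hq.2
    rw [(isOpen_strips N).interior_eq] at this
    exact this h
  linarith [not_lt.1 h2]

/-- The harmonic function `e^(κx) cos (κ (y - a))`. -/
noncomputable def Phi (κ a : ℝ) (z : ℂ) : ℝ := (Complex.exp (κ * (z - a * Complex.I))).re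

theorem Phi_eq (κ a : ℝ) (z : ℂ) :
    Phi κ a z = Real.exp (κ * z.re) * Real.cos (κ * (z.im - a)) := by
  unfold Phi
  rw [Complex.exp_re]
  simp

theorem harmonicAt_Phi (κ a : ℝ) (z : ℂ) : HarmonicAt (Phi κ a) z := by
  unfold Phi
  apply AnalyticAt.harmonicAt_re
  fun_prop

/-- All boundary points of `strips N` are regular. -/
theorem isRegularPoint_strips {N : ℕ} {q : ℂ} (hq : q ∈ frontier (strips N)) :
    IsRegularPoint (strips N) q := by
  refine ⟨univ, isOpen_univ, mem_univ q, fun z => ((-Phi N 0 z : ℝ) : EReal), ?_, ?_, ?_⟩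
  · rw [inter_univ]
    exact isSubharmonicOn_of_harmonic (isOpen_strips N)
      fun z _ => (harmonicAt_Phi N 0 z).neg
  · rintro z ⟨hz, -⟩
    have h1 : 0 < Phi N 0 z := by
      rw [Phi_eq, sub_zero]
      exact mul_pos (Real.exp_pos _) hz
    have h2 : (0 : EReal) = ((0 : ℝ) : EReal) := rfl
    rw [h2, EReal.coe_lt_coe_iff]
    linarith
  · have h1 : Phi N 0 q = 0 := by
      rw [Phi_eq, sub_zero, cos_eq_zero_of_mem_frontier hq, mul_zero]
    have hcont : ContinuousAt (fun z => ((-Phi N 0 z : ℝ) : EReal)) q :=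
      continuous_coe_real_ereal.continuousAt.comp (harmonicAt_Phi N 0 q).1.continuousAt.neg
    have h2 := hcont.tendsto
    rw [h1, neg_zero] at h2
    exact h2.mono_left nhdsWithin_le_nhds

/-- Existence of a nontrivial solution for `λ = N`. -/
theorem exists_solution {N : ℕ} :
    ∃ r, IsBoundedSolution (strips N) N r ∧ ∃ z ∈ strips N, r z ≠ 0 := by
  refine ⟨fun z => Real.cos (N * z.im), ?_, 0, ?_, ?_⟩
  · have hcd : ContDiff ℝ 2 fun z : ℂ => Real.cos (N * z.im) := by
      apply Real.contDiff_cos.comp
      exact contDiff_const.mul Complex.imCLM.contDiff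
    refine ⟨?_, ⟨1, fun z _ => Real.abs_cos_le_one _⟩, hcd.contDiffOn, ?_, ?_⟩
    · intro z _
      have h1 : (z + 2 * Real.pi * Complex.I).im = z.im + 2 * Real.pi := by
        simp
      rw [h1, mul_add]
      exact Real.cos_add_nat_mul_two_pi _ N
    · intro z _
      have h1 := laplacian_wt_mul (N : ℝ) (z := z) hcd.contDiffAt
      have h2 : (fun y : ℂ => wt N y * Real.cos (N * y.im)) = Phi N 0 := by
        funext y
        rw [Phi_eq, sub_zero]
        rfl
      rw [h2] at h1
      have h3 : (Δ (Phi N 0)) z = 0 := (harmonicAt_Phi N 0 z).2.self_of_nhds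
      rw [h3] at h1
      have h4 := wt_pos (N : ℝ) z
      have h5 := mul_eq_zero.1 h1.symm
      rcases h5 with h5 | h5
      · exact absurd h5 h4.ne'
      · exact h5
    · intro q hq _
      have h1 := (hcd.continuous.tendsto q).mono_left (nhdsWithin_le_nhds (s := strips N))
      rwa [cos_eq_zero_of_mem_frontier hq] at h1
  · simp [strips]
  · simp

/-- Every point of `strips N` lies in one of the strips. -/
theorem exists_strip {N : ℕ} {z : ℂ} (hz : z ∈ strips N) :
    ∃ a : ℝ, |N * (z.im - a)| < Real.pi / 2 ∧ ∀ y : ℝ, Real.cos (N * (y - a)) = Real.cos (N * y) := by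
  by_cases hN : N = 0
  · subst hN
    exact ⟨0, by simp; positivity, by simp⟩
  have hN0 : (N : ℝ) ≠ 0 := by exact_mod_cast hN
  set x : ℝ := N * z.im with hx
  have hcos : 0 < Real.cos x := hz
  -- reduce modulo `2π`
  obtain ⟨k, hk⟩ : ∃ k : ℤ, x - k * (2 * Real.pi) ∈ Ioc (-Real.pi) Real.pi := by
    obtain ⟨k, hk, -⟩ := existsUnique_sub_zsmul_mem_Ioc (Real.two_pi_pos) x (-Real.pi)
    refine ⟨k, ?_⟩
    rw [zsmul_eq_mul] at hk
    have : -Real.pi + 2 * Real.pi = Real.pi := by ring
    rwa [this] at hk
  refine ⟨k * (2 * Real.pi) / N, ?_, ?_⟩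
  · have h1 : N * (z.im - k * (2 * Real.pi) / N) = x - k * (2 * Real.pi) := by
      rw [hx]; field_simp
    rw [h1]
    have h2 : 0 < Real.cos (x - k * (2 * Real.pi)) := by
      rwa [Real.cos_sub_int_mul_two_pi]
    rw [abs_lt]
    constructor
    · by_contra hcon
      rw [not_lt] at hcon
      have h3 : Real.cos (x - k * (2 * Real.pi)) ≤ 0 := by
        rw [← Real.cos_neg]
        apply Real.cos_nonpos_of_pi_div_two_le_of_le (by linarith)
        linarith [hk.1, Real.pi_pos]
      linarith
    · by_contra hcon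
      rw [not_lt] at hcon
      have h3 : Real.cos (x - k * (2 * Real.pi)) ≤ 0 := by
        apply Real.cos_nonpos_of_pi_div_two_le_of_le hcon
        linarith [hk.2, Real.pi_pos]
      linarith
  · intro y
    have h1 : N * (y - k * (2 * Real.pi) / N) = N * y - k * (2 * Real.pi) := by field_simp
    rw [h1, Real.cos_sub_int_mul_two_pi]

/-- One-sided uniqueness. -/
theorem solution_nonpos {N : ℕ} {lam : ℝ} (hlam : 0 < lam) (hlamN : lam < N) {r : ℂ → ℝ}
    (hr : IsBoundedSolution (strips N) lam r) : ∀ z ∈ strips N, r z ≤ 0 := by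
  intro z₀ hz₀
  obtain ⟨a, ha, hcos⟩ := exists_strip hz₀
  have hN0 : (0 : ℝ) < N := hlam.trans hlamN
  obtain ⟨C, hC⟩ := hr.bounded
  have hC0 : 0 ≤ C := (abs_nonneg _).trans (hC z₀ hz₀)
  set h : ℂ → ℝ := fun y => wt lam y * r y with hh
  have hharm : ∀ z ∈ strips N, HarmonicAt h z := fun z hz =>
    harmonicAt_wt_mul (isOpen_strips N) hr.smooth hr.eqn hz
  obtain ⟨κ, hκ1, hκ2⟩ := exists_between hlamN
  have hκ0 : 0 < κ := hlam.trans hκ1
  set m : ℝ := Real.cos (κ * (Real.pi / 2 / N)) with hm
  have hκN : κ * (Real.pi / 2 / N) < Real.pi / 2 := by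
    have : κ * (Real.pi / 2 / N) = κ / N * (Real.pi / 2) := by ring
    rw [this]
    have h1 : κ / N < 1 := by rwa [div_lt_one hN0]
    have := Real.pi_pos
    nlinarith
  have hm0 : 0 < m := by
    apply Real.cos_pos_of_mem_Ioo
    constructor
    · have : 0 < κ * (Real.pi / 2 / N) := by positivity
      linarith [Real.pi_pos]
    · exact hκN
  have hcosm : ∀ y : ℝ, |N * (y - a)| ≤ Real.pi / 2 → m ≤ Real.cos (κ * (y - a)) := by
    intro y hy
    rw [hm, ← Real.cos_abs (κ * (y - a))]
    have h1 : |κ * (y - a)| ≤ κ * (Real.pi / 2 / N) := by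
      rw [abs_mul, abs_of_pos hκ0]
      apply mul_le_mul_of_nonneg_left _ hκ0.le
      rw [abs_mul, abs_of_pos hN0] at hy
      rw [le_div_iff₀ hN0]
      linarith
    apply Real.cos_le_cos_of_nonneg_of_le_pi (abs_nonneg _) _ h1
    linarith [Real.pi_pos]
  -- the comparison
  have key : ∀ δ : ℝ, 0 < δ → h z₀ ≤ δ * (Phi κ a z₀ + 1) := by
    intro δ hδ
    have ht1 : Tendsto (fun M : ℝ => C * Real.exp (-(lam * M))) atTop (𝓝 (C * 0)) := by
      apply Tendsto.const_mul
      apply Real.tendsto_exp_neg_atTop_nhds_zero.comp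
      exact tendsto_id.const_mul_atTop hlam
    have ht2 : Tendsto (fun M : ℝ => C * Real.exp (-((κ - lam) * M))) atTop (𝓝 (C * 0)) := by
      apply Tendsto.const_mul
      apply Real.tendsto_exp_neg_atTop_nhds_zero.comp
      exact tendsto_id.const_mul_atTop (by linarith)
    rw [mul_zero] at ht1 ht2
    obtain ⟨M, ⟨hM1, hM2⟩, hM3⟩ := (((ht1.eventually_lt_const hδ).and
      (ht2.eventually_lt_const (mul_pos hδ hm0))).and (eventually_gt_atTop |z₀.re|)).exists
    set Ω : Set ℂ := {z | |z.re| < M ∧ |N * (z.im - a)| < Real.pi / 2} with hΩ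
    have hc1 : Continuous fun z : ℂ => |z.re| := Complex.continuous_re.abs
    have hc2 : Continuous fun z : ℂ => |N * (z.im - a)| :=
      (continuous_const.mul (Complex.continuous_im.sub continuous_const)).abs
    have hΩopen : IsOpen Ω :=
      (isOpen_lt hc1 continuous_const).inter (isOpen_lt hc2 continuous_const)
    have hΩsub : Ω ⊆ strips N := by
      rintro z ⟨-, hz⟩
      change 0 < Real.cos (N * z.im)
      rw [← hcos]
      rw [abs_lt] at hz
      exact Real.cos_pos_of_mem_Ioo ⟨by linarith, hz.2⟩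
    have hΩb : Bornology.IsBounded Ω := by
      rw [isBounded_iff_forall_norm_le]
      refine ⟨M + (|a| + Real.pi / 2 / N), ?_⟩
      rintro z ⟨hz1, hz2⟩
      refine (Complex.norm_le_abs_re_add_abs_im z).trans ?_
      have h1 : |z.im - a| ≤ Real.pi / 2 / N := by
        rw [le_div_iff₀ hN0]
        rw [abs_mul, abs_of_pos hN0] at hz2
        linarith
      have h2 : |z.im| ≤ |a| + |z.im - a| := by
        calc |z.im| = |a + (z.im - a)| := by congr 1; ring
          _ ≤ _ := abs_add_le _ _
      linarith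
    have hcl : closure Ω ⊆ {z | |z.re| ≤ M ∧ |N * (z.im - a)| ≤ Real.pi / 2} :=
      closure_minimal (fun z hz => ⟨hz.1.le, hz.2.le⟩)
        ((isClosed_le hc1 continuous_const).inter (isClosed_le hc2 continuous_const))
    set g : ℂ → ℝ := fun z => h z - δ * (Phi κ a z + 1) with hg
    have hgharm : ∀ z ∈ strips N, HarmonicAt g z := by
      intro z hz
      apply (hharm z hz).sub
      have h1 : HarmonicAt (fun z => Phi κ a z + 1) z :=
        (harmonicAt_Phi κ a z).add (harmonicAt_const 1)
      exact h1.const_smul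
    have hPhipos : ∀ z : ℂ, |N * (z.im - a)| ≤ Real.pi / 2 →
        Real.exp (κ * z.re) * m ≤ Phi κ a z := by
      intro z hz
      rw [Phi_eq]
      exact mul_le_mul_of_nonneg_left (hcosm _ hz) (Real.exp_pos _).le
    have hmax := harmonic_max hΩopen hΩb (fun z hz => hgharm z (hΩsub hz)) ?_ z₀ ⟨hM3, ha⟩
    · simp only [hg] at hmax
      linarith
    · intro q hq c' hc'
      obtain ⟨hq1, hq2⟩ := hcl hq.1
      by_cases hside : |N * (q.im - a)| = Real.pi / 2
      · -- lateral side
        have hqfr : q ∈ frontier (strips N) := by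
          refine ⟨closure_mono hΩsub hq.1, ?_⟩
          rw [(isOpen_strips N).interior_eq]
          intro hqs
          have h1 : 0 < Real.cos (N * q.im) := hqs
          rw [← hcos, ← Real.cos_abs, hside, Real.cos_pi_div_two] at h1
          exact lt_irrefl _ h1
        have h1 := hr.boundary q hqfr (isRegularPoint_strips hqfr)
        have h2 : Tendsto h (𝓝[strips N] q) (𝓝 (wt lam q * 0)) :=
          (((contDiff_wt lam).continuous.tendsto q).mono_left nhdsWithin_le_nhds).mul h1
        rw [mul_zero] at h2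
        have h3 := (h2.mono_left (nhdsWithin_mono q hΩsub)).eventually_lt_const hc'
        filter_upwards [h3, self_mem_nhdsWithin] with z hz1 hz2
        have h4 := hPhipos z hz2.2.le
        have h5 : 0 ≤ Real.exp (κ * z.re) * m := by positivity
        have h6 : 0 ≤ δ * (Phi κ a z + 1) := mul_nonneg hδ.le (by linarith)
        simp only [hg]
        linarith
      · -- vertical sides
        have hside' : |N * (q.im - a)| < Real.pi / 2 := lt_of_le_of_ne hq2 hside
        have hre : |q.re| = M := by
          by_contra hne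
          have : q ∈ Ω := ⟨lt_of_le_of_ne hq1 hne, hside'⟩
          exact hq.2 (by rwa [hΩopen.interior_eq])
        have hqs : q ∈ strips N := by
          change 0 < Real.cos (N * q.im)
          rw [← hcos]
          rw [abs_lt] at hside'
          exact Real.cos_pos_of_mem_Ioo ⟨by linarith, hside'.2⟩
        have hgq : g q ≤ 0 := by
          have h1 : h q ≤ Real.exp (lam * q.re) * C := by
            simp only [hh]
            apply mul_le_mul_of_nonneg_left _ (wt_pos lam q).le
            exact (le_abs_self _).trans (hC q hqs)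
          have h2 := hPhipos q hq2
          simp only [hg]
          rcases abs_choice q.re with h3 | h3
          · -- right side
            rw [h3] at hre
            rw [hre] at h1 h2
            have h4 : Real.exp (lam * M) * C
                = Real.exp (κ * M) * (C * Real.exp (-((κ - lam) * M))) := by
              have : Real.exp (lam * M) = Real.exp (κ * M) * Real.exp (-((κ - lam) * M)) := by
                rw [← Real.exp_add]; congr 1; ring
              rw [this]; ring
            have h5 : Real.exp (κ * M) * (C * Real.exp (-((κ - lam) * M)))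
                ≤ Real.exp (κ * M) * (δ * m) :=
              mul_le_mul_of_nonneg_left hM2.le (Real.exp_pos _).le
            have h6 : δ * (Real.exp (κ * M) * m) ≤ δ * Phi κ a q :=
              mul_le_mul_of_nonneg_left h2 hδ.le
            nlinarith
          · -- left side
            rw [h3] at hre
            have hre' : q.re = -M := by linarith
            rw [hre'] at h1
            have h4 : Real.exp (lam * -M) * C ≤ δ := by
              have : lam * -M = -(lam * M) := by ring
              rw [this]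
              linarith
            have h5 : 0 ≤ Real.exp (κ * q.re) * m := by positivity
            have h6 : 0 ≤ δ * Phi κ a q := mul_nonneg hδ.le (h5.trans h2)
            nlinarith
        have h1 := ((hgharm q hqs).1.continuousAt).eventually_lt continuousAt_const
          (lt_of_le_of_lt hgq hc')
        filter_upwards [h1.filter_mono nhdsWithin_le_nhds] with z hz using hz.le
  -- conclusion
  have h1 : h z₀ ≤ 0 := by
    have ht : Tendsto (fun δ : ℝ => δ * (Phi κ a z₀ + 1)) (𝓝[>] 0) (𝓝 (0 * (Phi κ a z₀ + 1))) :=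
      (tendsto_id.mono_left nhdsWithin_le_nhds).mul_const _
    rw [zero_mul] at ht
    apply ge_of_tendsto ht
    filter_upwards [self_mem_nhdsWithin] with δ hδ using key δ hδ
  simp only [hh] at h1
  by_contra hcon
  rw [not_le] at hcon
  have := mul_pos (wt_pos lam z₀) hcon
  linarith

theorem neg_solution {D : Set ℂ} {lam : ℝ} {r : ℂ → ℝ}
    (hr : IsBoundedSolution D lam r) : IsBoundedSolution D lam (fun z => -r z) := by
  refine ⟨fun z hz => by rw [hr.periodic z hz], ?_, hr.smooth.neg, ?_, ?_⟩
  · obtain ⟨C, hC⟩ := hr.bounded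
    exact ⟨C, fun z hz => by rw [abs_neg]; exact hC z hz⟩
  · intro z hz
    have h1 := hr.eqn z hz
    unfold opL at h1 ⊢
    have h2 : (Δ fun z => -r z) z = -(Δ r) z := by
      have := congrFun (laplacian_neg (f := r)) z
      exact this
    rw [h2, fderiv_fun_neg]
    simp only [_root_.neg_apply]
    linarith
  · intro q hq hreg
    have := (hr.boundary q hq hreg).neg
    rwa [neg_zero] at this

theorem criticalRate_strips {N : ℕ} (hN : 0 < N) : criticalRate (strips N) = N := by
  have hN' : (0 : ℝ) < N := by exact_mod_cast hN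
  unfold criticalRate
  apply le_antisymm
  · refine (iInf_le_of_le (N : ℝ) (iInf_le_of_le hN' (iInf_le_of_le exists_solution le_rfl))).trans ?_
    rw [ENNReal.ofReal_natCast]
  · refine le_iInf fun lam => le_iInf fun hlam => le_iInf fun hex => ?_
    by_contra hcon
    rw [not_le, ← ENNReal.ofReal_natCast, ENNReal.ofReal_lt_ofReal_iff hN'] at hcon
    obtain ⟨r, hr, z, hz, hrz⟩ := hex
    apply hrz
    apply le_antisymm (solution_nonpos hlam hcon hr z hz)
    have := solution_nonpos hlam hcon (neg_solution hr) z hz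
    linarith

end Pool.Agent.H28.MinSub
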